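import Pool.Agent.MP_6cbfb8_an.Bessel

/-!
Domination of the pieces of a density which is rough in one variable, one variable part.
-/

namespace Pool.Agent.LEAF

open MeasureTheory Set
open scoped ENNReal Real RealInnerProductSpace ContDiff

/-- Cauchy-Schwarz. -/
theorem cs_mul {α : Type*} [MeasurableSpace α] (μ : Measure α) {f g : α → ℝ≥0∞}
    (hf : AEMeasurable f μ) (hg : AEMeasurable g μ) :
    (∫⁻ x, f x * g x ∂μ) ^ 2 ≤ (∫⁻ x, f x ^ 2 ∂μ) * ∫⁻ x, g x ^ 2 ∂μ := by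
  have h := ENNReal.lintegral_mul_le_Lp_mul_Lq μ Real.HolderConjugate.two_two hf hg
  have h2 : ∀ x : ℝ≥0∞, x ^ (2 : ℝ) = x ^ 2 := fun x => ENNReal.rpow_two x
  simp only [Pi.mul_apply, h2] at h
  calc (∫⁻ x, f x * g x ∂μ) ^ 2
      ≤ ((∫⁻ x, f x ^ 2 ∂μ) ^ (1 / (2 : ℝ)) * (∫⁻ x, g x ^ 2 ∂μ) ^ (1 / (2 : ℝ))) ^ 2 := by
        gcongr
    _ = (∫⁻ x, f x ^ 2 ∂μ) * ∫⁻ x, g x ^ 2 ∂μ := by
        rw [mul_pow, ← ENNReal.rpow_two, ← ENNReal.rpow_two, ← ENNReal.rpow_mul,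
          ← ENNReal.rpow_mul]
        norm_num

theorem cs_set {α : Type*} [MeasurableSpace α] (μ : Measure α) {f : α → ℝ≥0∞}
    (hf : AEMeasurable f μ) : (∫⁻ x, f x ∂μ) ^ 2 ≤ μ univ * ∫⁻ x, f x ^ 2 ∂μ := by
  have h := cs_mul μ (f := fun _ => 1) aemeasurable_const hf
  simpa using h

/-- The characteristic function of `{u ≤ w}` in the window `|u| ≤ 1`, `u = √R (t - t0)`. -/
def win (R t0 w : ℝ) : Set ℝ := {t | |√R * (t - t0)| ≤ 1 ∧ √R * (t - t0) ≤ w}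

theorem measurableSet_win (R t0 w : ℝ) : MeasurableSet (win R t0 w) := by
  have h1 : MeasurableSet {t : ℝ | |√R * (t - t0)| ≤ 1} :=
    measurableSet_le (f := fun t : ℝ => |√R * (t - t0)|) (by fun_prop) measurable_const
  have h2 : MeasurableSet {t : ℝ | √R * (t - t0) ≤ w} :=
    measurableSet_le (f := fun t : ℝ => √R * (t - t0)) (by fun_prop) measurable_const
  exact h1.inter h2

theorem win_sub (R t0 w : ℝ) (hR : 0 < R) :
    win R t0 w ⊆ Metric.closedBall t0 (1 / √R) := by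
  rintro t ⟨h, _⟩
  have hs : 0 < √R := Real.sqrt_pos.2 hR
  rw [abs_mul, abs_of_pos hs] at h
  rw [Metric.mem_closedBall, Real.dist_eq, le_div_iff₀ hs]
  linarith

theorem volume_win (R t0 w : ℝ) (hR : 0 < R) :
    volume (win R t0 w) ≤ ENNReal.ofReal (2 / √R) := by
  refine (measure_mono (win_sub R t0 w hR)).trans (le_of_eq ?_)
  rw [Real.volume_closedBall]
  congr 1
  ring

/-- The windowed transform. -/
noncomputable def Ps (g : ℝ → ℂ) (R t0 w τ : ℝ) : ℂ :=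
  ∫ t in win R t0 w, g t * Complex.exp (((-((t - t0) * τ) : ℝ) : ℂ) * Complex.I)

theorem norm_ei (x : ℝ) : ‖Complex.exp (((x : ℝ) : ℂ) * Complex.I)‖ = 1 :=
  Complex.norm_exp_ofReal_mul_I x

theorem Ps_bound {g : ℝ → ℂ} {B R t0 w τ : ℝ} (hR : 0 < R) (hB : 0 ≤ B) (hg : ∀ t, ‖g t‖ ≤ B) :
    ‖Ps g R t0 w τ‖ₑ ≤ ENNReal.ofReal (B * (2 / √R)) := by
  unfold Ps
  refine (enorm_integral_le_lintegral_enorm _).trans ?_
  calc ∫⁻ t in win R t0 w, ‖g t * Complex.exp (((-((t - t0) * τ) : ℝ) : ℂ) * Complex.I)‖ₑ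
      ≤ ∫⁻ _ in win R t0 w, ENNReal.ofReal B := by
        refine lintegral_mono fun t => ?_
        rw [← ofReal_norm, norm_mul, norm_ei, mul_one]
        exact ENNReal.ofReal_le_ofReal (hg t)
    _ = ENNReal.ofReal B * volume (win R t0 w) := by rw [setLIntegral_const]
    _ ≤ ENNReal.ofReal B * ENNReal.ofReal (2 / √R) := by
        gcongr
        exact volume_win R t0 w hR
    _ = ENNReal.ofReal (B * (2 / √R)) := by rw [← ENNReal.ofReal_mul hB]

/-- Plancherel in `τ`. -/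
theorem Ps_planch {g : ℝ → ℂ} {B R t0 w : ℝ} (hR : 0 < R) (hB : 0 ≤ B) (hgm : Measurable g)
    (hg : ∀ t, ‖g t‖ ≤ B) :
    ∫⁻ τ : ℝ, ‖Ps g R t0 w τ‖ₑ ^ 2 ≤ ENNReal.ofReal (2 * π * (B ^ 2 * (2 / √R))) := by
  have hπ : (0 : ℝ) < 2 * π := by positivity
  set Ψ : ℝ → ℝ := fun t => (2 * π)⁻¹ * (t - t0) with hΨ
  have hA : ∀ φ : ℝ → ℝ≥0∞, Measurable φ →
      ∫⁻ t in win R t0 w, φ (Ψ t) ≤ ENNReal.ofReal (2 * π) * ∫⁻ x, φ x := by
    intro φ hφ
    refine (setLIntegral_le_lintegral _ _).trans (le_of_eq ?_)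
    have h1 : ∫⁻ t, φ (Ψ t) = ∫⁻ t, φ ((2 * π)⁻¹ * t) :=
      lintegral_sub_right_eq_self (fun t => φ ((2 * π)⁻¹ * t)) t0
    rw [h1]
    have h2 : ∫⁻ t : ℝ, φ ((2 * π)⁻¹ * t) =
        ∫⁻ x, φ x ∂(Measure.map (fun t : ℝ => (2 * π)⁻¹ * t) volume) :=
      (lintegral_map hφ (measurable_const_mul _)).symm
    rw [h2, Real.map_volume_mul_left (inv_ne_zero hπ.ne'), lintegral_smul_measure, inv_inv,
      abs_of_pos hπ, smul_eq_mul]
  have hgi : Integrable g (volume.restrict (win R t0 w)) := by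
    refine Measure.integrableOn_of_bounded (M := B) ?_ hgm.aestronglyMeasurable
      (Filter.Eventually.of_forall hg)
    exact ne_top_of_le_ne_top ENNReal.ofReal_ne_top (volume_win R t0 w hR)
  have key := Pool.Agent.MP_6cbfb8_an.bessel (volume.restrict (win R t0 w)) Ψ (by fun_prop)
    (ENNReal.ofReal (2 * π)) ENNReal.ofReal_ne_top hA g hgi
  have e1 : ∀ τ : ℝ, ‖Ps g R t0 w τ‖ₑ ^ 2 =
      ‖∫ t in win R t0 w, g t *
        Complex.exp (((-(2 * π * inner ℝ (Ψ t) τ) : ℝ) : ℂ) * Complex.I)‖ₑ ^ (2 : ℝ) := by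
    intro τ
    rw [ENNReal.rpow_two]
    unfold Ps
    congr 2
    refine integral_congr_ae (Filter.Eventually.of_forall fun t => ?_)
    simp only
    congr 3
    simp only [hΨ, RCLike.inner_apply, conj_trivial]
    congr 2
    field_simp
  simp only [e1]
  refine key.trans ?_
  calc ENNReal.ofReal (2 * π) * ∫⁻ t in win R t0 w, ‖g t‖ₑ ^ (2 : ℝ)
      ≤ ENNReal.ofReal (2 * π) * ∫⁻ _ in win R t0 w, ENNReal.ofReal (B ^ 2) := by
        gcongr with t
        rw [← ofReal_norm, ENNReal.rpow_two, ← ENNReal.ofReal_pow (norm_nonneg _)]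
        exact ENNReal.ofReal_le_ofReal (pow_le_pow_left₀ (norm_nonneg _) (hg t) 2)
    _ = ENNReal.ofReal (2 * π) * (ENNReal.ofReal (B ^ 2) * volume (win R t0 w)) := by
        rw [setLIntegral_const]
    _ ≤ ENNReal.ofReal (2 * π) * (ENNReal.ofReal (B ^ 2) * ENNReal.ofReal (2 / √R)) := by
        gcongr
        exact volume_win R t0 w hR
    _ = _ := by
        rw [← ENNReal.ofReal_mul (by positivity), ← ENNReal.ofReal_mul (by positivity)]

end Pool.Agent.LEAF
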