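import Pool.Agent.LEAF.DOM0

/-!
Domination of the pieces of a density which is rough in one variable: from a smooth cut to sharp cuts.
-/

namespace Pool.Agent.LEAF

open MeasureTheory Set
open scoped ENNReal Real RealInnerProductSpace ContDiff

/-- A `C^1` cut is an average of sharp cuts. -/
theorem dom_cut (A R t0 : ℝ) (hA : 0 ≤ A) (g : ℝ → ℂ) (hg : Integrable g)
    (H H' : ℝ → ℂ) (hH : ∀ u, HasDerivAt H (H' u) u) (hH' : Continuous H')
    (h0 : ∀ u, 1 ≤ |u| → H u = 0) (hb : ∀ u ∈ Icc (-1 : ℝ) 1, ‖H' u‖ ≤ A) :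
    ‖∫ t, g t * H (√R * (t - t0))‖ₑ ^ 2 ≤ ENNReal.ofReal (2 * A ^ 2) *
      ∫⁻ w in Icc (-1 : ℝ) 1, ‖∫ t in win R t0 w, g t‖ₑ ^ 2 := by
  set s : ℝ := √R with hs
  set S : ℝ → Set ℝ := fun w => win R t0 w with hS
  have hSm : ∀ w, MeasurableSet (S w) := fun w => measurableSet_win R t0 w
  set P : Set (ℝ × ℝ) := {x | |s * (x.1 - t0)| ≤ 1 ∧ s * (x.1 - t0) ≤ x.2} with hP
  have hPm : MeasurableSet P := by
    have a1 : Measurable fun x : ℝ × ℝ => |s * (x.1 - t0)| := by fun_prop
    have a2 : Measurable fun x : ℝ × ℝ => s * (x.1 - t0) := by fun_prop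
    have b1 : MeasurableSet {x : ℝ × ℝ | |s * (x.1 - t0)| ≤ 1} :=
      measurableSet_le a1 measurable_const
    have b2 : MeasurableSet {x : ℝ × ℝ | s * (x.1 - t0) ≤ x.2} :=
      measurableSet_le a2 measurable_snd
    have b3 : P = {x : ℝ × ℝ | |s * (x.1 - t0)| ≤ 1} ∩ {x : ℝ × ℝ | s * (x.1 - t0) ≤ x.2} := rfl
    rw [b3]
    exact b1.inter b2
  set k : ℝ → ℝ → ℂ := fun t w => -(H' w) * (S w).indicator g t with hk
  have hint : Integrable (Function.uncurry k) ((volume : Measure ℝ).prod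
      (volume.restrict (Icc (-1 : ℝ) 1))) := by
    have e1 : Function.uncurry k =
        fun x : ℝ × ℝ => P.indicator (fun x => g x.1 * -(H' x.2)) x := by
      funext x
      by_cases hx : x ∈ P
      · have : x.1 ∈ S x.2 := hx
        simp [hk, Function.uncurry, indicator_of_mem hx, indicator_of_mem this, mul_comm]
      · have : x.1 ∉ S x.2 := hx
        simp [hk, Function.uncurry, indicator_of_notMem hx, indicator_of_notMem this]
    rw [e1]
    refine Integrable.indicator ?_ hPm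
    exact Integrable.mul_prod (f := g) (g := fun w => -(H' w)) hg hH'.neg.integrableOn_Icc
  have e2 : ∀ t, g t * H (s * (t - t0)) = ∫ w in Icc (-1 : ℝ) 1, k t w := by
    intro t
    by_cases ht : |s * (t - t0)| ≤ 1
    · set u := s * (t - t0) with hu
      have hu' := abs_le.1 ht
      have e3 : ∀ w, k t w = (Ici u).indicator (fun w => g t * -(H' w)) w := by
        intro w
        by_cases hw : u ≤ w
        · have h1 : t ∈ S w := ⟨ht, hw⟩
          have h2 : w ∈ Ici u := hw
          simp [hk, indicator_of_mem h1, indicator_of_mem h2, mul_comm]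
        · have h1 : t ∉ S w := fun h => hw h.2
          have h2 : w ∉ Ici u := hw
          simp [hk, indicator_of_notMem h1, indicator_of_notMem h2]
      simp_rw [e3]
      rw [setIntegral_indicator measurableSet_Ici, integral_const_mul, integral_neg]
      congr 1
      have e4 : Icc (-1 : ℝ) 1 ∩ Ici u = Icc u 1 := by
        ext w
        simp only [mem_inter_iff, mem_Icc, mem_Ici]
        constructor
        · rintro ⟨⟨a, b⟩, c⟩; exact ⟨c, b⟩
        · rintro ⟨c, b⟩; exact ⟨⟨hu'.1.trans c, b⟩, c⟩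
      rw [e4, integral_Icc_eq_integral_Ioc, ← intervalIntegral.integral_of_le hu'.2,
        intervalIntegral.integral_eq_sub_of_hasDerivAt (fun x _ => hH x)
          (hH'.intervalIntegrable _ _), h0 1 (by norm_num), zero_sub, neg_neg]
    · have e3 : ∀ w, k t w = 0 := by
        intro w
        have h1 : t ∉ S w := fun h => ht h.1
        simp [hk, indicator_of_notMem h1]
      simp_rw [e3]
      rw [h0 _ (le_of_lt (not_le.1 ht))]
      simp
  have e5 : ∫ t, g t * H (s * (t - t0)) =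
      ∫ w in Icc (-1 : ℝ) 1, -(H' w) * ∫ t in S w, g t := by
    simp_rw [e2]
    rw [integral_integral_swap hint]
    refine integral_congr_ae (Filter.Eventually.of_forall fun w => ?_)
    simp only [hk]
    rw [integral_const_mul, integral_indicator (hSm w)]
  have hmG : AEStronglyMeasurable (fun w => ∫ t in S w, g t)
      (volume.restrict (Icc (-1 : ℝ) 1)) := by
    have h1 : AEStronglyMeasurable (fun x : ℝ × ℝ => P.indicator (fun x => g x.1) x)
        ((volume : Measure ℝ).prod (volume.restrict (Icc (-1 : ℝ) 1))) :=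
      (hg.aestronglyMeasurable.comp_fst).indicator hPm
    have h2 := h1.prod_swap.integral_prod_right'
    refine h2.congr (Filter.Eventually.of_forall fun w => ?_)
    simp only
    rw [← integral_indicator (hSm w)]
    refine integral_congr_ae (Filter.Eventually.of_forall fun t => ?_)
    by_cases hx : (t, w) ∈ P
    · have : t ∈ S w := hx
      simp [indicator_of_mem this, indicator_of_mem hx]
    · have : t ∉ S w := hx
      simp [indicator_of_notMem this, indicator_of_notMem hx]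
  rw [e5]
  calc ‖∫ w in Icc (-1 : ℝ) 1, -(H' w) * ∫ t in S w, g t‖ₑ ^ 2 ≤
      (∫⁻ w in Icc (-1 : ℝ) 1, ENNReal.ofReal A * ‖∫ t in S w, g t‖ₑ) ^ 2 := by
        gcongr
        refine (enorm_integral_le_lintegral_enorm _).trans
          (setLIntegral_mono' measurableSet_Icc fun w hw => ?_)
        rw [enorm_mul, enorm_neg]
        gcongr
        rw [← ofReal_norm]
        exact ENNReal.ofReal_le_ofReal (hb w hw)
    _ ≤ (volume.restrict (Icc (-1 : ℝ) 1)) univ *
        ∫⁻ w in Icc (-1 : ℝ) 1, (ENNReal.ofReal A * ‖∫ t in S w, g t‖ₑ) ^ 2 :=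
        cs_set _ (hmG.enorm.const_mul _)
    _ = _ := by
        have h1 : (volume.restrict (Icc (-1 : ℝ) 1)) univ = ENNReal.ofReal 2 := by
          rw [Measure.restrict_apply_univ, Real.volume_Icc]; norm_num
        have h2 : ∀ w, (ENNReal.ofReal A * ‖∫ t in S w, g t‖ₑ) ^ 2 =
            ENNReal.ofReal (A ^ 2) * ‖∫ t in S w, g t‖ₑ ^ 2 := by
          intro w
          rw [mul_pow, ENNReal.ofReal_pow hA]
        rw [h1]
        simp_rw [h2]
        rw [lintegral_const_mul' _ _ ENNReal.ofReal_ne_top, ← mul_assoc,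
          ← ENNReal.ofReal_mul (by norm_num)]

/-- The domination in one variable. -/
theorem dom_t (n : ℕ) (A D : ℝ) (hA : 0 ≤ A) (hD : 0 ≤ D) (θ : ℝ → ℝ) (hθ : ContDiff ℝ 1 θ)
    (hθs : ∀ u, 1 ≤ |u| → θ u = 0) (hθ0 : ∀ u, |θ u| ≤ 1) (hθ1 : ∀ u, |deriv θ u| ≤ D)
    (g : ℝ → ℂ) (B R t0 : ℝ) (y y' : ℝ → EuclideanSpace ℝ (Fin n))
    (ξ : EuclideanSpace ℝ (Fin n)) (hR : 1 ≤ R) (hgm : Measurable g) (hg : ∀ t, ‖g t‖ ≤ B)
    (hy : ∀ t, HasDerivAt y (y' t) t) (hyc : Continuous y')
    (hyA : ∀ t, |t - t0| ≤ 1 / √R → ‖y' t - y' t0‖ ≤ A * |t - t0|) (hξ : ‖ξ‖ ≤ 4 * R) :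
    ‖∫ t, g t * (θ (√R * (t - t0)) : ℂ) *
      Complex.exp (((-⟪ξ, y t⟫ : ℝ) : ℂ) * Complex.I)‖ₑ ^ 2 ≤
      ENNReal.ofReal (2 * (D + 4 * A) ^ 2) *
        ∫⁻ w in Icc (-1 : ℝ) 1, ‖Ps g R t0 w ⟪ξ, y' t0⟫‖ₑ ^ 2 := by
  have hR0 : 0 < R := by linarith
  have hs : 0 < √R := Real.sqrt_pos.2 hR0
  have hsR : √R * √R = R := Real.mul_self_sqrt hR0.le
  set τ : ℝ := ⟪ξ, y' t0⟫ with hτ
  -- the phase
  set ψ : ℝ → ℝ := fun u => -(⟪ξ, y (t0 + u / √R)⟫ - ⟪ξ, y t0⟫ - u / √R * τ) with hψ
  set ψ' : ℝ → ℝ := fun u => -(⟪ξ, (1 / √R) • y' (t0 + u / √R)⟫ - 1 / √R * τ) with hψ'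
  have hψd : ∀ u, HasDerivAt ψ (ψ' u) u := by
    intro u
    have h1 : HasDerivAt (fun u : ℝ => t0 + u / √R) (1 / √R) u := by
      simpa using ((hasDerivAt_id u).div_const (√R)).const_add t0
    have h2 : HasDerivAt (fun u : ℝ => y (t0 + u / √R)) ((1 / √R) • y' (t0 + u / √R)) u :=
      (hy (t0 + u / √R)).scomp u h1
    have h3 : HasDerivAt (fun u : ℝ => ⟪ξ, y (t0 + u / √R)⟫)
        (⟪ξ, (1 / √R) • y' (t0 + u / √R)⟫) u := by
      simpa using (hasDerivAt_const u ξ).inner ℝ h2
    have h4 : HasDerivAt (fun u : ℝ => u / √R * τ) (1 / √R * τ) u :=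
      ((hasDerivAt_id u).div_const (√R)).mul_const τ
    exact ((h3.sub_const _).sub h4).neg
  have hψc : Continuous ψ' := by
    simp only [hψ']
    fun_prop
  have hθd : ∀ u, HasDerivAt θ (deriv θ u) u := fun u =>
    ((hθ.differentiable (by norm_num)) u).hasDerivAt
  have hθc : Continuous (deriv θ) := hθ.continuous_deriv (by norm_num)
  set H : ℝ → ℂ := fun u => (θ u : ℂ) * Complex.exp (((ψ u : ℝ) : ℂ) * Complex.I) with hH
  set H' : ℝ → ℂ := fun u => ((deriv θ u : ℝ) : ℂ) * Complex.exp (((ψ u : ℝ) : ℂ) * Complex.I) +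
    (θ u : ℂ) * (Complex.exp (((ψ u : ℝ) : ℂ) * Complex.I) * (((ψ' u : ℝ) : ℂ) * Complex.I))
    with hH'
  have hHd : ∀ u, HasDerivAt H (H' u) u := by
    intro u
    have h1 : HasDerivAt (fun u : ℝ => (θ u : ℂ)) ((deriv θ u : ℝ) : ℂ) u := (hθd u).ofReal_comp
    have h2 : HasDerivAt (fun u : ℝ => ((ψ u : ℝ) : ℂ) * Complex.I)
        (((ψ' u : ℝ) : ℂ) * Complex.I) u := (hψd u).ofReal_comp.mul_const _
    exact h1.mul h2.cexp
  have hψcont : Continuous ψ := continuous_iff_continuousAt.2 fun u => (hψd u).continuousAt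
  have hθcont : Continuous θ := hθ.continuous
  have hHc : Continuous H' := by
    simp only [hH']
    fun_prop
  have hH0 : ∀ u, 1 ≤ |u| → H u = 0 := by
    intro u hu
    simp [hH, hθs u hu]
  have hHb : ∀ u ∈ Icc (-1 : ℝ) 1, ‖H' u‖ ≤ D + 4 * A := by
    intro u hu
    have hu1 : |u| ≤ 1 := abs_le.2 hu
    have h1 : |ψ' u| ≤ 4 * A := by
      have e1 : ψ' u = -(1 / √R * ⟪ξ, y' (t0 + u / √R) - y' t0⟫) := by
        simp only [hψ', hτ]
        rw [inner_smul_right, inner_sub_right]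
        ring
      rw [e1, abs_neg, abs_mul, abs_of_pos (by positivity : (0 : ℝ) < 1 / √R)]
      have h2 : |⟪ξ, y' (t0 + u / √R) - y' t0⟫| ≤ 4 * R * (A * (1 / √R)) := by
        refine (abs_real_inner_le_norm _ _).trans ?_
        have h3 : |t0 + u / √R - t0| ≤ 1 / √R := by
          rw [add_sub_cancel_left, abs_div, abs_of_pos hs]
          gcongr
        have h4 := hyA (t0 + u / √R) h3
        exact mul_le_mul hξ (h4.trans (by gcongr)) (norm_nonneg _) (by positivity)
      calc 1 / √R * |⟪ξ, y' (t0 + u / √R) - y' t0⟫| ≤ 1 / √R * (4 * R * (A * (1 / √R))) := by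
            gcongr
        _ = 4 * A * (R / (√R * √R)) := by field_simp
        _ = 4 * A := by rw [hsR, div_self hR0.ne', mul_one]
    simp only [hH']
    refine (norm_add_le _ _).trans ?_
    refine add_le_add ?_ ?_
    · rw [norm_mul, norm_ei, mul_one, Complex.norm_real]
      exact hθ1 u
    · rw [norm_mul, norm_mul, norm_ei, one_mul, norm_mul, Complex.norm_I, mul_one,
        Complex.norm_real, Complex.norm_real, Real.norm_eq_abs, Real.norm_eq_abs]
      calc |θ u| * |ψ' u| ≤ 1 * (4 * A) := by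
            gcongr
            exact hθ0 u
        _ = 4 * A := one_mul _
  -- the density in the window
  set W : Set ℝ := {t | |√R * (t - t0)| ≤ 1} with hW
  have hWm : MeasurableSet W :=
    measurableSet_le (f := fun t : ℝ => |√R * (t - t0)|) (by fun_prop) measurable_const
  have hWw : W = win R t0 1 := by
    ext t
    simp only [hW, win, mem_ofPred_eq]
    constructor
    · intro h; exact ⟨h, (abs_le.1 h).2⟩
    · intro h; exact h.1
  set g1 : ℝ → ℂ := fun t => g t * Complex.exp (((-((t - t0) * τ) : ℝ) : ℂ) * Complex.I)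
    with hg1
  have hg1m : Measurable g1 := by
    simp only [hg1]
    fun_prop
  have hg1i : Integrable (W.indicator g1) := by
    rw [integrable_indicator_iff hWm]
    refine Measure.integrableOn_of_bounded (M := B) ?_ hg1m.aestronglyMeasurable
      (Filter.Eventually.of_forall fun t => ?_)
    · rw [hWw]
      exact ne_top_of_le_ne_top ENNReal.ofReal_ne_top (volume_win R t0 1 hR0)
    · simp only [hg1]
      rw [norm_mul, norm_ei, mul_one]
      exact hg t
  have key := dom_cut (D + 4 * A) R t0 (by positivity) (W.indicator g1) hg1i H H' hHd hHc hH0 hHb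
  have e1 : ∫ t, g t * (θ (√R * (t - t0)) : ℂ) *
      Complex.exp (((-⟪ξ, y t⟫ : ℝ) : ℂ) * Complex.I) =
      Complex.exp (((-⟪ξ, y t0⟫ : ℝ) : ℂ) * Complex.I) *
        ∫ t, W.indicator g1 t * H (√R * (t - t0)) := by
    rw [← integral_const_mul]
    refine integral_congr_ae (Filter.Eventually.of_forall fun t => ?_)
    simp only
    by_cases ht : t ∈ W
    · rw [indicator_of_mem ht]
      have e2 : t0 + √R * (t - t0) / √R = t := by
        rw [mul_div_cancel_left₀ _ hs.ne']
        ring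
      have e3 : √R * (t - t0) / √R = t - t0 := mul_div_cancel_left₀ _ hs.ne'
      simp only [hH, hg1, hψ, e3]
      have e4 : Complex.exp (((-⟪ξ, y t⟫ : ℝ) : ℂ) * Complex.I) =
          Complex.exp (((-⟪ξ, y t0⟫ : ℝ) : ℂ) * Complex.I) *
          (Complex.exp (((-((t - t0) * τ) : ℝ) : ℂ) * Complex.I) *
          Complex.exp (((-(⟪ξ, y t⟫ - ⟪ξ, y t0⟫ - (t - t0) * τ) : ℝ) : ℂ) * Complex.I)) := by
        rw [← Complex.exp_add, ← Complex.exp_add]
        congr 1
        push_cast
        ring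
      rw [e4]
      ring_nf
    · rw [indicator_of_notMem ht]
      have h1 : θ (√R * (t - t0)) = 0 := hθs _ (le_of_lt (not_le.1 ht))
      simp [h1]
  rw [e1, enorm_mul]
  have e2 : ‖Complex.exp (((-⟪ξ, y t0⟫ : ℝ) : ℂ) * Complex.I)‖ₑ = 1 := by
    rw [← ofReal_norm, norm_ei, ENNReal.ofReal_one]
  rw [e2, one_mul]
  refine key.trans (le_of_eq ?_)
  congr 1
  refine lintegral_congr fun w => ?_
  congr 2
  unfold Ps
  refine setIntegral_congr_fun (measurableSet_win R t0 w) fun t ht => ?_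
  have : t ∈ W := ht.1
  simp only [indicator_of_mem this, hg1]

end Pool.Agent.LEAF
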