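import Pool.Agent.LEAF.DOM0

/-!
Domination of the pieces of a density which is rough in one variable: the smooth variables are
removed by Fourier inversion.
-/

namespace Pool.Agent.LEAF

open MeasureTheory Set FourierTransform
open scoped ENNReal Real RealInnerProductSpace ContDiff

/-- The weight. -/
noncomputable def wt (m : ℕ) (η : EuclideanSpace ℝ (Fin m)) : ℝ := (1 + ‖η‖) ^ (m + 1)

theorem wt_pos (m : ℕ) (η : EuclideanSpace ℝ (Fin m)) : 0 < wt m η := by
  unfold wt
  positivity

theorem continuous_wt (m : ℕ) : Continuous (wt m) := by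
  unfold wt
  fun_prop

theorem wt_inv_eq (m : ℕ) (η : EuclideanSpace ℝ (Fin m)) :
    (wt m η)⁻¹ = (1 + ‖η‖) ^ (-((m : ℝ) + 1)) := by
  unfold wt
  rw [Real.rpow_neg (by positivity), ← Real.rpow_natCast]
  push_cast
  rfl

theorem wt_integrable (m : ℕ) : Integrable fun η : EuclideanSpace ℝ (Fin m) => (wt m η)⁻¹ := by
  simp only [wt_inv_eq]
  apply integrable_one_add_norm
  rw [finrank_euclideanSpace, Fintype.card_fin]
  linarith

/-- The total mass of the inverse weight. -/
noncomputable def Wm (m : ℕ) : ℝ := ∫ η : EuclideanSpace ℝ (Fin m), (wt m η)⁻¹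

theorem Wm_nonneg (m : ℕ) : 0 ≤ Wm m := integral_nonneg fun η => (inv_pos.2 (wt_pos m η)).le

theorem Wm_eq (m : ℕ) : ∫⁻ η : EuclideanSpace ℝ (Fin m), ENNReal.ofReal ((wt m η)⁻¹) =
    ENNReal.ofReal (Wm m) := by
  rw [Wm, ofReal_integral_eq_lintegral_ofReal (wt_integrable m)
    (Filter.Eventually.of_forall fun η => (inv_pos.2 (wt_pos m η)).le)]

/-- Decay of the Fourier transform and inversion. -/
theorem four_decay (m : ℕ) (B : ℕ → ℝ) (r : ℝ) : ∃ C : ℝ, 0 ≤ C ∧
    ∀ (f : EuclideanSpace ℝ (Fin m) → ℂ) (z0 : EuclideanSpace ℝ (Fin m)), ContDiff ℝ ∞ f →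
      (∀ z, r < ‖z - z0‖ → f z = 0) → (∀ j z, ‖iteratedFDeriv ℝ j f z‖ ≤ B j) →
      (∀ η, ‖𝓕 f η‖ ≤ C * (wt m η)⁻¹) ∧
      ∀ z, f z = ∫ η, Complex.exp (((2 * π * ⟪η, z⟫ : ℝ) : ℂ) * Complex.I) * 𝓕 f η := by
  set v0 : ℝ := volume.real (Metric.closedBall (0 : EuclideanSpace ℝ (Fin m)) r) with hv0
  have hv00 : 0 ≤ v0 := measureReal_nonneg
  set S : ℝ := ∑ j ∈ Finset.range (m + 1 + 1), |B j| * v0 with hS
  have hS0 : 0 ≤ S := Finset.sum_nonneg fun j _ => by positivity
  refine ⟨2 ^ m * (S + 2 ^ (m + 1) * S), by positivity, fun f z0 hf hsupp hB => ?_⟩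
  have hcs : HasCompactSupport f :=
    HasCompactSupport.intro (isCompact_closedBall z0 r) fun z hz => hsupp z (by
      rw [Metric.mem_closedBall, dist_eq_norm, not_le] at hz
      exact hz)
  have hfN : ContDiff ℝ ((⊤ : ℕ∞) : WithTop ℕ∞) f := hf
  have hcont : ∀ n : ℕ, Continuous (iteratedFDeriv ℝ n f) := fun n =>
    hf.continuous_iteratedFDeriv (by exact_mod_cast le_top)
  have hint : ∀ n : ℕ, Integrable (iteratedFDeriv ℝ n f) := fun n =>
    (hcont n).integrable_of_hasCompactSupport (hcs.iteratedFDeriv n)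
  have hfi : Integrable f := hf.continuous.integrable_of_hasCompactSupport hcs
  have hInt : ∀ n : ℕ, ∫ v, ‖iteratedFDeriv ℝ n f v‖ ≤ |B n| * v0 := by
    intro n
    have h1 : ∀ v, ‖iteratedFDeriv ℝ n f v‖ ≤
        indicator (Metric.closedBall z0 r) (fun _ => |B n|) v := by
      intro v
      by_cases hv : v ∈ Metric.closedBall z0 r
      · rw [indicator_of_mem hv]
        exact (hB n v).trans (le_abs_self _)
      · rw [indicator_of_notMem hv]
        have h2 : v ∉ tsupport f := by
          intro h3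
          apply hv
          refine (closure_minimal ?_ Metric.isClosed_closedBall) h3
          intro w hw
          by_contra h4
          rw [Metric.mem_closedBall, dist_eq_norm, not_le] at h4
          exact hw (hsupp w h4)
        have h3 : iteratedFDeriv ℝ n f v = 0 := by
          by_contra h4
          exact h2 (support_iteratedFDeriv_subset n h4)
        rw [h3, norm_zero]
    have h2 : Integrable (indicator (Metric.closedBall z0 r) (fun _ => |B n|)) :=
      (integrable_indicator_iff Metric.isClosed_closedBall.measurableSet).2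
        (integrableOn_const measure_closedBall_lt_top.ne)
    refine (integral_mono (hint n).norm h2 h1).trans (le_of_eq ?_)
    rw [integral_indicator Metric.isClosed_closedBall.measurableSet, setIntegral_const,
      smul_eq_mul, mul_comm, hv0, measureReal_def, measureReal_def,
      Measure.addHaar_closedBall_center]
  have hkey : ∀ (n : ℕ) (w : EuclideanSpace ℝ (Fin m)), n ≤ m + 1 →
      ‖w‖ ^ n * ‖𝓕 f w‖ ≤ 2 ^ n * S := by
    intro n w hn
    have h1 := Real.pow_mul_norm_iteratedFDeriv_fourier_le (K := 0) (N := ⊤) hfN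
      (fun k n hk _ => by
        have hk0 : k = 0 := by
          have : ((k : ℕ∞)) ≤ 0 := hk
          exact Nat.le_zero.1 (by exact_mod_cast this)
        subst hk0
        simpa using (hint n).norm) (k := 0) (n := n) le_rfl le_top w
    rw [norm_iteratedFDeriv_zero] at h1
    refine h1.trans ?_
    simp only [pow_zero, one_mul, Nat.cast_zero, mul_zero, zero_add]
    refine mul_le_mul_of_nonneg_left ?_ (by positivity)
    rw [Finset.range_one, Finset.singleton_product, Finset.sum_map]
    simp only [Function.Embedding.coeFn_mk, pow_zero, one_mul]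
    refine (Finset.sum_le_sum fun j _ => hInt j).trans ?_
    exact Finset.sum_le_sum_of_subset_of_nonneg (Finset.range_mono (by omega))
      fun j _ _ => by positivity
  have hdec : ∀ η, ‖𝓕 f η‖ ≤ 2 ^ m * (S + 2 ^ (m + 1) * S) * (wt m η)⁻¹ := by
    intro η
    rw [← div_eq_mul_inv, le_div_iff₀ (wt_pos m η)]
    have h0 := hkey 0 η (by omega)
    have h1 := hkey (m + 1) η le_rfl
    have h2 := add_pow_le (zero_le_one' ℝ) (norm_nonneg η) (m + 1)
    rw [Nat.add_sub_cancel, one_pow] at h2
    unfold wt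
    calc ‖𝓕 f η‖ * (1 + ‖η‖) ^ (m + 1)
        ≤ ‖𝓕 f η‖ * (2 ^ m * (1 + ‖η‖ ^ (m + 1))) :=
          mul_le_mul_of_nonneg_left h2 (norm_nonneg _)
      _ = 2 ^ m * (‖η‖ ^ 0 * ‖𝓕 f η‖ + ‖η‖ ^ (m + 1) * ‖𝓕 f η‖) := by ring
      _ ≤ 2 ^ m * (2 ^ 0 * S + 2 ^ (m + 1) * S) := by gcongr
      _ = _ := by ring
  refine ⟨hdec, fun z => ?_⟩
  have hFc : Continuous (𝓕 f) := VectorFourier.fourierIntegral_continuous Real.continuous_fourierChar
    (L := innerₗ (EuclideanSpace ℝ (Fin m))) continuous_inner hfi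
  have hFi : Integrable (𝓕 f) := by
    refine ((wt_integrable m).const_mul (2 ^ m * (S + 2 ^ (m + 1) * S))).mono'
      hFc.aestronglyMeasurable (Filter.Eventually.of_forall hdec)
  have h1 := congrFun (hf.continuous.fourierInv_fourier_eq hfi hFi) z
  rw [Real.fourierInv_eq'] at h1
  rw [← h1]
  refine integral_congr_ae (Filter.Eventually.of_forall fun η => ?_)
  simp only [smul_eq_mul]

end Pool.Agent.LEAF
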