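import Pool.Agent.LEAF.DOM1
import Pool.Agent.LEAF.DOM2

/-!
Domination of the pieces of a density which is rough in one variable.
-/

namespace Pool.Agent.LEAF

open MeasureTheory Set FourierTransform
open scoped ENNReal Real RealInnerProductSpace ContDiff

/-- The Fourier transform in the smooth variables. -/
noncomputable def bh {m : ℕ} (b : ℝ → EuclideanSpace ℝ (Fin m) → ℂ)
    (η : EuclideanSpace ℝ (Fin m)) (t : ℝ) : ℂ := 𝓕 (b t) η

theorem bh_eq {m : ℕ} (b : ℝ → EuclideanSpace ℝ (Fin m) → ℂ)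
    (η : EuclideanSpace ℝ (Fin m)) (t : ℝ) : bh b η t =
      ∫ v, Complex.exp (((-2 * π * ⟪v, η⟫ : ℝ) : ℂ) * Complex.I) * b t v := by
  unfold bh
  rw [Real.fourier_eq']
  rfl

theorem bh_def {m : ℕ} (b : ℝ → EuclideanSpace ℝ (Fin m) → ℂ)
    (η : EuclideanSpace ℝ (Fin m)) (t : ℝ) : bh b η t = 𝓕 (b t) η := rfl

theorem Ps_def (g : ℝ → ℂ) (R t0 w τ : ℝ) : Ps g R t0 w τ =
    ∫ t in win R t0 w, g t * Complex.exp (((-((t - t0) * τ) : ℝ) : ℂ) * Complex.I) := rfl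

theorem measurable_bh {m : ℕ} {b : ℝ → EuclideanSpace ℝ (Fin m) → ℂ}
    (hb : Measurable (Function.uncurry b)) :
    Measurable fun p : EuclideanSpace ℝ (Fin m) × ℝ => bh b p.1 p.2 := by
  have h0 : Measurable fun q : (EuclideanSpace ℝ (Fin m) × ℝ) × EuclideanSpace ℝ (Fin m) =>
      b q.1.2 q.2 := by
    have e1 : Measurable fun q : (EuclideanSpace ℝ (Fin m) × ℝ) × EuclideanSpace ℝ (Fin m) =>
        ((q.1.2, q.2) : ℝ × EuclideanSpace ℝ (Fin m)) := by fun_prop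
    exact hb.comp e1
  have h1 : Measurable fun q : (EuclideanSpace ℝ (Fin m) × ℝ) × EuclideanSpace ℝ (Fin m) =>
      Complex.exp (((-2 * π * ⟪q.2, q.1.1⟫ : ℝ) : ℂ) * Complex.I) * b q.1.2 q.2 := by
    refine Measurable.mul ?_ h0
    fun_prop
  have h2 := h1.stronglyMeasurable.integral_prod_right'
    (ν := (volume : Measure (EuclideanSpace ℝ (Fin m))))
  have h3 : (fun p : EuclideanSpace ℝ (Fin m) × ℝ => bh b p.1 p.2) = fun p =>
      ∫ v, Complex.exp (((-2 * π * ⟪v, p.1⟫ : ℝ) : ℂ) * Complex.I) * b p.2 v := by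
    funext p
    exact bh_eq b p.1 p.2
  rw [h3]
  exact h2.measurable

attribute [local irreducible] bh Ps

/-- `measurable_bh`, composed. -/
theorem measurable_bh' {m : ℕ} {α : Type*} [MeasurableSpace α]
    {b : ℝ → EuclideanSpace ℝ (Fin m) → ℂ} (hb : Measurable (Function.uncurry b))
    {f : α → EuclideanSpace ℝ (Fin m)} {g : α → ℝ} (hf : Measurable f) (hg : Measurable g) :
    Measurable fun a => bh b (f a) (g a) := by
  have h1 : Measurable fun a => ((f a, g a) : EuclideanSpace ℝ (Fin m) × ℝ) := hf.prodMk hg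
  have h2 := (measurable_bh hb).comp h1
  exact h2

theorem measurable_Ps {m : ℕ} {b : ℝ → EuclideanSpace ℝ (Fin m) → ℂ}
    (hb : Measurable (Function.uncurry b)) (R t0 : ℝ) :
    Measurable fun p : (ℝ × ℝ) × EuclideanSpace ℝ (Fin m) => Ps (bh b p.2) R t0 p.1.2 p.1.1 := by
  have hS : MeasurableSet {q : ((ℝ × ℝ) × EuclideanSpace ℝ (Fin m)) × ℝ |
      |√R * (q.2 - t0)| ≤ 1 ∧ √R * (q.2 - t0) ≤ q.1.1.2} := by
    have h1 : MeasurableSet {q : ((ℝ × ℝ) × EuclideanSpace ℝ (Fin m)) × ℝ |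
        |√R * (q.2 - t0)| ≤ 1} :=
      measurableSet_le (f := fun q : ((ℝ × ℝ) × EuclideanSpace ℝ (Fin m)) × ℝ =>
        |√R * (q.2 - t0)|) (by fun_prop) measurable_const
    have h2 : MeasurableSet {q : ((ℝ × ℝ) × EuclideanSpace ℝ (Fin m)) × ℝ |
        √R * (q.2 - t0) ≤ q.1.1.2} :=
      measurableSet_le (f := fun q : ((ℝ × ℝ) × EuclideanSpace ℝ (Fin m)) × ℝ =>
        √R * (q.2 - t0)) (by fun_prop) (by fun_prop)
    exact h1.inter h2
  have hF : Measurable fun q : ((ℝ × ℝ) × EuclideanSpace ℝ (Fin m)) × ℝ =>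
      bh b q.1.2 q.2 * Complex.exp (((-((q.2 - t0) * q.1.1.1) : ℝ) : ℂ) * Complex.I) := by
    refine Measurable.mul ?_ (by fun_prop)
    exact measurable_bh' hb (measurable_snd.comp measurable_fst) measurable_snd
  have h1 := (hF.indicator hS).stronglyMeasurable.integral_prod_right'
    (ν := (volume : Measure ℝ))
  have h2 : (fun p : (ℝ × ℝ) × EuclideanSpace ℝ (Fin m) => Ps (bh b p.2) R t0 p.1.2 p.1.1) =
      fun p => ∫ t : ℝ, ({q : ((ℝ × ℝ) × EuclideanSpace ℝ (Fin m)) × ℝ |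
        |√R * (q.2 - t0)| ≤ 1 ∧ √R * (q.2 - t0) ≤ q.1.1.2}.indicator
        (fun q : ((ℝ × ℝ) × EuclideanSpace ℝ (Fin m)) × ℝ => bh b q.1.2 q.2 *
          Complex.exp (((-((q.2 - t0) * q.1.1.1) : ℝ) : ℂ) * Complex.I))) (p, t) := by
    funext p
    rw [Ps_def, ← integral_indicator (measurableSet_win R t0 p.1.2)]
    refine integral_congr_ae (Filter.Eventually.of_forall fun t => ?_)
    simp only
    by_cases ht : t ∈ win R t0 p.1.2
    · have h3 : (p, t) ∈ {q : ((ℝ × ℝ) × EuclideanSpace ℝ (Fin m)) × ℝ |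
        |√R * (q.2 - t0)| ≤ 1 ∧ √R * (q.2 - t0) ≤ q.1.1.2} := ht
      rw [indicator_of_mem ht, indicator_of_mem h3]
    · have h3 : (p, t) ∉ {q : ((ℝ × ℝ) × EuclideanSpace ℝ (Fin m)) × ℝ |
        |√R * (q.2 - t0)| ≤ 1 ∧ √R * (q.2 - t0) ≤ q.1.1.2} := ht
      rw [indicator_of_notMem ht, indicator_of_notMem h3]
  rw [h2]
  exact h1.measurable

/-- `measurable_Ps`, composed. -/
theorem measurable_Ps' {m : ℕ} {α : Type*} [MeasurableSpace α]
    {b : ℝ → EuclideanSpace ℝ (Fin m) → ℂ} (hb : Measurable (Function.uncurry b)) (R t0 : ℝ)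
    {f : α → EuclideanSpace ℝ (Fin m)} {g k : α → ℝ} (hf : Measurable f) (hg : Measurable g)
    (hk : Measurable k) : Measurable fun a => Ps (bh b (f a)) R t0 (g a) (k a) := by
  have h1 : Measurable fun a => (((k a, g a), f a) : (ℝ × ℝ) × EuclideanSpace ℝ (Fin m)) :=
    (hk.prodMk hg).prodMk hf
  have h2 := (measurable_Ps hb R t0).comp h1
  exact h2

/-- Inversion for the windowed transforms. -/
theorem Ps_inv {m : ℕ} {b : ℝ → EuclideanSpace ℝ (Fin m) → ℂ} {C R : ℝ} (hR : 0 < R)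
    (hb : Measurable (Function.uncurry b)) (hC : ∀ t η, ‖𝓕 (b t) η‖ ≤ C * (wt m η)⁻¹)
    (hinv : ∀ t z, b t z =
      ∫ η, Complex.exp (((2 * π * ⟪η, z⟫ : ℝ) : ℂ) * Complex.I) * 𝓕 (b t) η)
    (t0 w τ : ℝ) (z : EuclideanSpace ℝ (Fin m)) :
    Ps (fun t => b t z) R t0 w τ =
      ∫ η, Complex.exp (((2 * π * ⟪η, z⟫ : ℝ) : ℂ) * Complex.I) * Ps (bh b η) R t0 w τ := by
  set μ : Measure ℝ := volume.restrict (win R t0 w) with hμ
  have : IsFiniteMeasure μ := ⟨by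
    rw [hμ, Measure.restrict_apply_univ]
    exact (volume_win R t0 w hR).trans_lt ENNReal.ofReal_lt_top⟩
  set F : ℝ × EuclideanSpace ℝ (Fin m) → ℂ := fun q =>
    Complex.exp (((2 * π * ⟪q.2, z⟫ : ℝ) : ℂ) * Complex.I) * (bh b q.2 q.1 *
      Complex.exp (((-((q.1 - t0) * τ) : ℝ) : ℂ) * Complex.I)) with hF
  have hFm : Measurable F := by
    refine Measurable.mul (by fun_prop) (Measurable.mul ?_ (by fun_prop))
    exact measurable_bh' hb measurable_snd measurable_fst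
  have hFi : Integrable F (μ.prod volume) := by
    have h1 : Integrable (fun q : ℝ × EuclideanSpace ℝ (Fin m) => (1 : ℝ) * (C * (wt m q.2)⁻¹))
        (μ.prod volume) := (integrable_const (1 : ℝ)).mul_prod ((wt_integrable m).const_mul C)
    refine h1.mono' hFm.aestronglyMeasurable (Filter.Eventually.of_forall fun q => ?_)
    rw [hF]
    simp only
    rw [norm_mul, norm_mul, norm_ei, norm_ei, one_mul, one_mul, mul_one, bh_def]
    exact hC q.1 q.2
  calc Ps (fun t => b t z) R t0 w τ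
      = ∫ t, ∫ η, F (t, η) ∂volume ∂μ := by
        rw [Ps_def]
        refine integral_congr_ae (Filter.Eventually.of_forall fun t => ?_)
        simp only
        rw [hinv t z, ← integral_mul_const]
        refine integral_congr_ae (Filter.Eventually.of_forall fun η => ?_)
        simp only [hF, bh_def]
        ring
    _ = ∫ η, ∫ t, F (t, η) ∂μ ∂volume := integral_integral_swap hFi
    _ = _ := by
        refine integral_congr_ae (Filter.Eventually.of_forall fun η => ?_)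
        simp only [hF, Ps_def]
        rw [integral_const_mul]

theorem Ps_z {m : ℕ} {b : ℝ → EuclideanSpace ℝ (Fin m) → ℂ} {C R : ℝ} (hR : 0 < R)
    (hb : Measurable (Function.uncurry b)) (hC : ∀ t η, ‖𝓕 (b t) η‖ ≤ C * (wt m η)⁻¹)
    (hinv : ∀ t z, b t z =
      ∫ η, Complex.exp (((2 * π * ⟪η, z⟫ : ℝ) : ℂ) * Complex.I) * 𝓕 (b t) η)
    (t0 w τ : ℝ) (z : EuclideanSpace ℝ (Fin m)) :
    ‖Ps (fun t => b t z) R t0 w τ‖ₑ ^ 2 ≤ ENNReal.ofReal (Wm m) *
      ∫⁻ η, ENNReal.ofReal (wt m η) * ‖Ps (bh b η) R t0 w τ‖ₑ ^ 2 := by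
  have hPm : Measurable fun η => Ps (bh b η) R t0 w τ :=
    measurable_Ps' hb R t0 measurable_id measurable_const measurable_const
  have h1 : ‖Ps (fun t => b t z) R t0 w τ‖ₑ ≤ ∫⁻ η,
      ENNReal.ofReal (√((wt m η)⁻¹)) * (ENNReal.ofReal (√(wt m η)) *
        ‖Ps (bh b η) R t0 w τ‖ₑ) := by
    rw [Ps_inv hR hb hC hinv]
    refine (enorm_integral_le_lintegral_enorm _).trans (le_of_eq ?_)
    refine lintegral_congr fun η => ?_
    have hw := wt_pos m η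
    rw [enorm_mul, ← ofReal_norm (Complex.exp _), norm_ei, ENNReal.ofReal_one, one_mul,
      ← mul_assoc, ← ENNReal.ofReal_mul (Real.sqrt_nonneg _),
      ← Real.sqrt_mul (inv_pos.2 hw).le, inv_mul_cancel₀ hw.ne', Real.sqrt_one,
      ENNReal.ofReal_one, one_mul]
  have hm1 : Measurable fun η : EuclideanSpace ℝ (Fin m) => ENNReal.ofReal (√((wt m η)⁻¹)) :=
    ((continuous_wt m).measurable.inv.sqrt).ennreal_ofReal
  have hm2 : Measurable fun η : EuclideanSpace ℝ (Fin m) => ENNReal.ofReal (√(wt m η)) *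
      ‖Ps (bh b η) R t0 w τ‖ₑ := ((continuous_wt m).measurable.sqrt.ennreal_ofReal).mul hPm.enorm
  refine (pow_le_pow_left' h1 2).trans ((cs_mul volume hm1.aemeasurable
    hm2.aemeasurable).trans (le_of_eq ?_))
  congr 1
  · rw [← Wm_eq]
    refine lintegral_congr fun η => ?_
    rw [← ENNReal.ofReal_pow (Real.sqrt_nonneg _), Real.sq_sqrt (inv_pos.2 (wt_pos m η)).le]
  · refine lintegral_congr fun η => ?_
    rw [mul_pow, ← ENNReal.ofReal_pow (Real.sqrt_nonneg _), Real.sq_sqrt (wt_pos m η).le]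

/-- The dominating function of one variable. -/
noncomputable def GGf {m : ℕ} (c : ℝ) (b : ℝ → EuclideanSpace ℝ (Fin m) → ℂ) (R t0 τ : ℝ) :
    ℝ≥0∞ :=
  ENNReal.ofReal c * ∫⁻ w in Icc (-1 : ℝ) 1, ∫⁻ η : EuclideanSpace ℝ (Fin m),
    ENNReal.ofReal (wt m η) * ‖Ps (bh b η) R t0 w τ‖ₑ ^ 2

theorem measurable_GGf_aux {m : ℕ} {b : ℝ → EuclideanSpace ℝ (Fin m) → ℂ}
    (hb : Measurable (Function.uncurry b)) (R t0 : ℝ) :
    Measurable fun p : (ℝ × ℝ) × EuclideanSpace ℝ (Fin m) =>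
      ENNReal.ofReal (wt m p.2) * ‖Ps (bh b p.2) R t0 p.1.2 p.1.1‖ₑ ^ 2 :=
  (((continuous_wt m).measurable.comp measurable_snd).ennreal_ofReal).mul
    ((measurable_Ps hb R t0).enorm.pow_const 2)

theorem measurable_GGf {m : ℕ} (c : ℝ) {b : ℝ → EuclideanSpace ℝ (Fin m) → ℂ}
    (hb : Measurable (Function.uncurry b)) (R t0 : ℝ) : Measurable (GGf c b R t0) := by
  unfold GGf
  refine Measurable.const_mul ?_ _
  have h1 := (measurable_GGf_aux hb R t0).lintegral_prod_right'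
    (ν := (volume : Measure (EuclideanSpace ℝ (Fin m))))
  exact h1.lintegral_prod_right' (ν := (volume.restrict (Icc (-1 : ℝ) 1)))

theorem bh_bound {m : ℕ} {b : ℝ → EuclideanSpace ℝ (Fin m) → ℂ} {C : ℝ}
    (hC : ∀ t η, ‖𝓕 (b t) η‖ ≤ C * (wt m η)⁻¹) (η : EuclideanSpace ℝ (Fin m)) (t : ℝ) :
    ‖bh b η t‖ ≤ C * (wt m η)⁻¹ := by
  rw [bh_def]
  exact hC t η

theorem GGf_le {m : ℕ} {c C : ℝ} (hc : 0 ≤ c) (hC0 : 0 ≤ C)
    {b : ℝ → EuclideanSpace ℝ (Fin m) → ℂ}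
    (hC : ∀ t η, ‖𝓕 (b t) η‖ ≤ C * (wt m η)⁻¹) {R : ℝ} (hR : 0 < R) (t0 τ : ℝ) :
    GGf c b R t0 τ ≤ ENNReal.ofReal (8 * c * C ^ 2 * Wm m / R) := by
  have hsR : 0 < √R := Real.sqrt_pos.2 hR
  have h1 : ∀ (w : ℝ) (η : EuclideanSpace ℝ (Fin m)),
      ENNReal.ofReal (wt m η) * ‖Ps (bh b η) R t0 w τ‖ₑ ^ 2 ≤
        ENNReal.ofReal (4 * C ^ 2 / R) * ENNReal.ofReal ((wt m η)⁻¹) := by
    intro w η
    have hw := wt_pos m η
    have h2 := Ps_bound (w := w) (τ := τ) (t0 := t0) hR (by positivity) (bh_bound hC η)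
    calc ENNReal.ofReal (wt m η) * ‖Ps (bh b η) R t0 w τ‖ₑ ^ 2
        ≤ ENNReal.ofReal (wt m η) * ENNReal.ofReal (C * (wt m η)⁻¹ * (2 / √R)) ^ 2 :=
          mul_le_mul' le_rfl (pow_le_pow_left' h2 2)
      _ = _ := by
          rw [← ENNReal.ofReal_pow (by positivity), ← ENNReal.ofReal_mul hw.le,
            ← ENNReal.ofReal_mul (by positivity)]
          congr 1
          rw [mul_pow, div_pow, Real.sq_sqrt hR.le]
          field_simp
          ring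
  unfold GGf
  calc ENNReal.ofReal c * ∫⁻ w in Icc (-1 : ℝ) 1, ∫⁻ η : EuclideanSpace ℝ (Fin m),
        ENNReal.ofReal (wt m η) * ‖Ps (bh b η) R t0 w τ‖ₑ ^ 2
      ≤ ENNReal.ofReal c * ∫⁻ _ in Icc (-1 : ℝ) 1, ∫⁻ η : EuclideanSpace ℝ (Fin m),
          ENNReal.ofReal (4 * C ^ 2 / R) * ENNReal.ofReal ((wt m η)⁻¹) := by
        exact mul_le_mul' le_rfl (lintegral_mono fun w => lintegral_mono fun η => h1 w η)
    _ = ENNReal.ofReal c * (ENNReal.ofReal (4 * C ^ 2 / R) * ENNReal.ofReal (Wm m) *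
          ENNReal.ofReal 2) := by
        rw [setLIntegral_const, Real.volume_Icc,
          lintegral_const_mul' _ _ ENNReal.ofReal_ne_top, Wm_eq]
        norm_num
    _ ≤ _ := by
        have := Wm_nonneg m
        rw [← ENNReal.ofReal_mul (by positivity), ← ENNReal.ofReal_mul (by positivity),
          ← ENNReal.ofReal_mul (by positivity)]
        refine ENNReal.ofReal_le_ofReal (le_of_eq ?_)
        ring

theorem GGf_int {m : ℕ} {c C : ℝ} (hc : 0 ≤ c) (hC0 : 0 ≤ C)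
    {b : ℝ → EuclideanSpace ℝ (Fin m) → ℂ} (hb : Measurable (Function.uncurry b))
    (hC : ∀ t η, ‖𝓕 (b t) η‖ ≤ C * (wt m η)⁻¹) {R : ℝ} (hR : 0 < R) (t0 : ℝ) :
    ∫⁻ τ, GGf c b R t0 τ ≤ ENNReal.ofReal (8 * π * c * C ^ 2 * Wm m / √R) := by
  have hsR : 0 < √R := Real.sqrt_pos.2 hR
  have haux := measurable_GGf_aux hb R t0
  have h0 : Measurable fun p : ℝ × ℝ => ∫⁻ η : EuclideanSpace ℝ (Fin m),
      ENNReal.ofReal (wt m η) * ‖Ps (bh b η) R t0 p.2 p.1‖ₑ ^ 2 :=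
    haux.lintegral_prod_right' (ν := (volume : Measure (EuclideanSpace ℝ (Fin m))))
  have h1 : ∀ w : ℝ, ∫⁻ τ : ℝ, ∫⁻ η : EuclideanSpace ℝ (Fin m),
      ENNReal.ofReal (wt m η) * ‖Ps (bh b η) R t0 w τ‖ₑ ^ 2 ≤
        ENNReal.ofReal (4 * π * C ^ 2 / √R) * ENNReal.ofReal (Wm m) := by
    intro w
    have hsw : Measurable fun p : ℝ × EuclideanSpace ℝ (Fin m) =>
        ENNReal.ofReal (wt m p.2) * ‖Ps (bh b p.2) R t0 w p.1‖ₑ ^ 2 :=
      (((continuous_wt m).measurable.comp measurable_snd).ennreal_ofReal).mul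
        ((measurable_Ps' hb R t0 measurable_snd measurable_const measurable_fst).enorm.pow_const 2)
    have hsw' := lintegral_lintegral_swap (μ := (volume : Measure ℝ))
      (ν := (volume : Measure (EuclideanSpace ℝ (Fin m))))
      (f := fun τ η => ENNReal.ofReal (wt m η) * ‖Ps (bh b η) R t0 w τ‖ₑ ^ 2) hsw.aemeasurable
    rw [hsw']
    calc ∫⁻ η : EuclideanSpace ℝ (Fin m), ∫⁻ τ : ℝ,
          ENNReal.ofReal (wt m η) * ‖Ps (bh b η) R t0 w τ‖ₑ ^ 2
        ≤ ∫⁻ η : EuclideanSpace ℝ (Fin m), ENNReal.ofReal (4 * π * C ^ 2 / √R) *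
            ENNReal.ofReal ((wt m η)⁻¹) := by
          refine lintegral_mono fun η => ?_
          have hw := wt_pos m η
          simp only
          rw [lintegral_const_mul' _ _ ENNReal.ofReal_ne_top]
          have hbm : Measurable (bh b η) := measurable_bh' hb measurable_const measurable_id
          calc ENNReal.ofReal (wt m η) * ∫⁻ τ : ℝ, ‖Ps (bh b η) R t0 w τ‖ₑ ^ 2
              ≤ ENNReal.ofReal (wt m η) * ENNReal.ofReal (2 * π *
                  ((C * (wt m η)⁻¹) ^ 2 * (2 / √R))) :=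
                mul_le_mul' le_rfl (Ps_planch hR (by positivity) hbm (bh_bound hC η))
            _ = _ := by
                rw [← ENNReal.ofReal_mul hw.le, ← ENNReal.ofReal_mul (by positivity)]
                congr 1
                field_simp
                ring
      _ = _ := by rw [lintegral_const_mul' _ _ ENNReal.ofReal_ne_top, Wm_eq]
  have h2 := lintegral_lintegral_swap (μ := (volume : Measure ℝ))
    (ν := volume.restrict (Icc (-1 : ℝ) 1))
    (f := fun τ w => ∫⁻ η : EuclideanSpace ℝ (Fin m),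
      ENNReal.ofReal (wt m η) * ‖Ps (bh b η) R t0 w τ‖ₑ ^ 2) h0.aemeasurable
  unfold GGf
  rw [lintegral_const_mul' _ _ ENNReal.ofReal_ne_top, h2]
  calc ENNReal.ofReal c * ∫⁻ w in Icc (-1 : ℝ) 1, ∫⁻ τ : ℝ, ∫⁻ η : EuclideanSpace ℝ (Fin m),
        ENNReal.ofReal (wt m η) * ‖Ps (bh b η) R t0 w τ‖ₑ ^ 2
      ≤ ENNReal.ofReal c * ∫⁻ _ in Icc (-1 : ℝ) 1,
          ENNReal.ofReal (4 * π * C ^ 2 / √R) * ENNReal.ofReal (Wm m) := by
        exact mul_le_mul' le_rfl (lintegral_mono fun w => h1 w)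
    _ = ENNReal.ofReal c * (ENNReal.ofReal (4 * π * C ^ 2 / √R) * ENNReal.ofReal (Wm m) *
          ENNReal.ofReal 2) := by
        rw [setLIntegral_const, Real.volume_Icc]
        norm_num
    _ ≤ _ := by
        have := Wm_nonneg m
        rw [← ENNReal.ofReal_mul (by positivity), ← ENNReal.ofReal_mul (by positivity),
          ← ENNReal.ofReal_mul (by positivity)]
        refine ENNReal.ofReal_le_ofReal (le_of_eq ?_)
        ring

/-- DOM, for one value of the smooth variables. -/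
theorem dom_one (n m : ℕ) (B : ℕ → ℝ) (r A D : ℝ) (hA : 0 ≤ A) (hD : 0 ≤ D) :
    ∃ C : ℝ, 0 < C ∧ ∀ (θ : ℝ → ℝ), ContDiff ℝ 1 θ → (∀ u, 1 ≤ |u| → θ u = 0) →
    (∀ u, |θ u| ≤ 1) → (∀ u, |deriv θ u| ≤ D) →
    ∀ (b : ℝ → EuclideanSpace ℝ (Fin m) → ℂ) (z0 : EuclideanSpace ℝ (Fin m)) (R t0 : ℝ),
      Measurable (Function.uncurry b) → (∀ t, ContDiff ℝ ∞ (b t)) →
      (∀ t z, r < ‖z - z0‖ → b t z = 0) → (∀ t j z, ‖iteratedFDeriv ℝ j (b t) z‖ ≤ B j) →
      1 ≤ R → ∃ GG : ℝ → ℝ≥0∞, Measurable GG ∧ (∀ τ, GG τ ≤ ENNReal.ofReal (C / R)) ∧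
        ∫⁻ τ, GG τ ≤ ENNReal.ofReal (C / √R) ∧
        ∀ (z : EuclideanSpace ℝ (Fin m)) (y y' : ℝ → EuclideanSpace ℝ (Fin n))
          (ξ : EuclideanSpace ℝ (Fin n)), (∀ t, HasDerivAt y (y' t) t) → Continuous y' →
          (∀ t, |t - t0| ≤ 1 / √R → ‖y' t - y' t0‖ ≤ A * |t - t0|) → ‖ξ‖ ≤ 4 * R →
          ‖∫ t, b t z * (θ (√R * (t - t0)) : ℂ) *
            Complex.exp (((-⟪ξ, y t⟫ : ℝ) : ℂ) * Complex.I)‖ₑ ^ 2 ≤ GG ⟪ξ, y' t0⟫ := by
  obtain ⟨C1, hC10, H⟩ := four_decay m B r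
  set c : ℝ := 2 * (D + 4 * A) ^ 2 * Wm m with hc
  have hW := Wm_nonneg m
  have hc0 : 0 ≤ c := by positivity
  refine ⟨8 * π * c * C1 ^ 2 * Wm m + 1, by positivity, fun θ hθ hθs hθ0 hθ1 b z0 R t0 hbm hbs
    hbsupp hbB hR => ?_⟩
  have hR0 : 0 < R := by linarith
  have hC : ∀ t η, ‖𝓕 (b t) η‖ ≤ C1 * (wt m η)⁻¹ := fun t η =>
    (H (b t) z0 (hbs t) (hbsupp t) (hbB t)).1 η
  have hinv : ∀ t z, b t z =
      ∫ η, Complex.exp (((2 * π * ⟪η, z⟫ : ℝ) : ℂ) * Complex.I) * 𝓕 (b t) η := fun t z =>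
    (H (b t) z0 (hbs t) (hbsupp t) (hbB t)).2 z
  refine ⟨GGf c b R t0, measurable_GGf c hbm R t0, fun τ => ?_, ?_, ?_⟩
  · refine (GGf_le hc0 hC10 hC hR0 t0 τ).trans (ENNReal.ofReal_le_ofReal ?_)
    gcongr
    have h1 : 8 * c * C1 ^ 2 * Wm m ≤ 8 * π * c * C1 ^ 2 * Wm m := by
      have h2 : 0 ≤ 8 * c * C1 ^ 2 * Wm m := by positivity
      have h3 : (1 : ℝ) ≤ π := by linarith [Real.pi_gt_three]
      calc 8 * c * C1 ^ 2 * Wm m ≤ π * (8 * c * C1 ^ 2 * Wm m) := le_mul_of_one_le_left h2 h3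
        _ = _ := by ring
    linarith
  · refine (GGf_int hc0 hC10 hbm hC hR0 t0).trans (ENNReal.ofReal_le_ofReal ?_)
    gcongr
    linarith
  · intro z y y' ξ hy hyc hyA hξ
    have hgm : Measurable fun t => b t z := hbm.comp (measurable_id.prodMk measurable_const)
    have hg : ∀ t, ‖b t z‖ ≤ B 0 := by
      intro t
      have := hbB t 0 z
      rwa [norm_iteratedFDeriv_zero] at this
    refine (dom_t n A D hA hD θ hθ hθs hθ0 hθ1 (fun t => b t z) (B 0) R t0 y y' ξ hR hgm hg hy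
      hyc hyA hξ).trans ?_
    unfold GGf
    calc ENNReal.ofReal (2 * (D + 4 * A) ^ 2) *
          ∫⁻ w in Icc (-1 : ℝ) 1, ‖Ps (fun t => b t z) R t0 w ⟪ξ, y' t0⟫‖ₑ ^ 2
        ≤ ENNReal.ofReal (2 * (D + 4 * A) ^ 2) * ∫⁻ w in Icc (-1 : ℝ) 1,
            ENNReal.ofReal (Wm m) * ∫⁻ η, ENNReal.ofReal (wt m η) *
              ‖Ps (bh b η) R t0 w ⟪ξ, y' t0⟫‖ₑ ^ 2 := by
          exact mul_le_mul' le_rfl (lintegral_mono fun w => Ps_z hR0 hbm hC hinv t0 w _ z)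
      _ = _ := by
          rw [lintegral_const_mul' _ _ ENNReal.ofReal_ne_top, ← mul_assoc,
            ← ENNReal.ofReal_mul (by positivity), hc]

end Pool.Agent.LEAF
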