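import Pool.Agent.LEAF.DOM3
import Pool.Agent.LF.Df0
import Pool.Agent.LF.CAPS

/-!
Domination of the caps of a density which is rough in one variable.
-/

namespace Pool.Agent.LEAF

open MeasureTheory Set Metric Pool.Agent.LF Pool.Agent.GNP Pool.Agent.MP_6cbfb8_an
open scoped ENNReal Real RealInnerProductSpace ContDiff

theorem hasDerivAt_Xt {m n : ℕ} {X : ℝ × E m → E n} (hX : ContDiff ℝ ∞ X) (z : E m) (t : ℝ) :
    HasDerivAt (fun t => X (t, z)) (Xt X (t, z)) t := by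
  have h1 : HasFDerivAt X (fderiv ℝ X (t, z)) (t, z) :=
    (hX.differentiable (by norm_num) (t, z)).hasFDerivAt
  have h2 : HasDerivAt (fun t : ℝ => ((t, z) : ℝ × E m)) ((1 : ℝ), (0 : E m)) t :=
    (hasDerivAt_id t).prodMk (hasDerivAt_const t z)
  exact h1.comp_hasDerivAt t h2

theorem continuous_Xt {m n : ℕ} {X : ℝ × E m → E n} (hX : ContDiff ℝ ∞ X) :
    Continuous (Xt X) := by
  have h1 : Continuous (fderiv ℝ X) := hX.continuous_fderiv (by norm_num)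
  exact h1.clm_apply continuous_const

theorem Xt_lip {m n : ℕ} {X : ℝ × E m → E n} (hX : ContDiff ℝ ∞ X) {A : ℝ}
    (hA : ∀ p, ‖iteratedFDeriv ℝ 2 X p‖ ≤ A) (z : E m) (t t0 : ℝ) :
    ‖Xt X (t, z) - Xt X (t0, z)‖ ≤ A * |t - t0| := by
  have h1 : ContDiff ℝ 1 (fderiv ℝ X) :=
    (contDiff_infty_iff_fderiv.1 hX).2.of_le (by norm_num)
  have h2 : ∀ p, ‖fderiv ℝ (fderiv ℝ X) p‖ ≤ A := by
    intro p
    have h3 : ‖iteratedFDeriv ℝ 1 (fderiv ℝ X) p‖ = ‖iteratedFDeriv ℝ (1 + 1) X p‖ :=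
      norm_iteratedFDeriv_fderiv
    have h4 : ‖iteratedFDeriv ℝ (0 + 1) (fderiv ℝ X) p‖ =
        ‖iteratedFDeriv ℝ 0 (fderiv ℝ (fderiv ℝ X)) p‖ := norm_iteratedFDeriv_fderiv.symm
    rw [norm_iteratedFDeriv_zero] at h4
    rw [← h4, zero_add, h3]
    exact hA p
  have h5 : ‖fderiv ℝ X (t, z) - fderiv ℝ X (t0, z)‖ ≤ A * ‖(t, z) - (t0, z)‖ :=
    Convex.norm_image_sub_le_of_norm_fderiv_le (s := univ)
      (fun p _ => (h1.differentiable (by norm_num)) p) (fun p _ => h2 p) convex_univ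
      (mem_univ _) (mem_univ _)
  have h6 : ‖(t, z) - (t0, z)‖ = |t - t0| := by
    rw [Prod.mk_sub_mk, sub_self, Prod.norm_mk, norm_zero, Real.norm_eq_abs]
    exact max_eq_left (abs_nonneg _)
  have h7 : Xt X (t, z) - Xt X (t0, z) =
      (fderiv ℝ X (t, z) - fderiv ℝ X (t0, z)) ((1 : ℝ), (0 : E m)) := by
    simp only [Xt, sub_apply]
  rw [h7]
  refine (ContinuousLinearMap.le_opNorm _ _).trans ?_
  have h8 : ‖((1 : ℝ), (0 : E m))‖ = 1 := by
    rw [Prod.norm_mk, norm_zero, norm_one]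
    exact max_eq_left zero_le_one
  rw [h8, mul_one, ← h6]
  exact h5

/-- From one value of the smooth variables to a cap. -/
theorem dom_z {m : ℕ} {C1 C2 R : ℝ} (hR : 0 < R) (hC2 : 0 ≤ C2) (J : E m → ℂ)
    (G : E m → ℝ≥0∞) (hG : Measurable G) (hJ : ∀ z, ‖J z‖ₑ ^ 2 ≤ G z) (zc z0 : E m) (δ0 : ℝ)
    (χ : E m → ℝ) (hχ1 : ∀ z, |χ z| ≤ 1) (hχ0 : ∀ z, C2 / √R < ‖z - zc‖ → χ z = 0)
    (hJ0 : ∀ z, δ0 < ‖z - z0‖ → J z = 0)
    (hC : C2 ^ m * (volume (ball (0 : E m) 1)).toReal ≤ C1) :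
    ‖∫ z, (χ z : ℂ) * J z‖ₑ ^ 2 ≤ ENNReal.ofReal (C1 * (1 / √R) ^ m) *
      ∫⁻ z in closedBall zc (C2 / √R) ∩ closedBall z0 δ0, G z := by
  have hsR : 0 < √R := Real.sqrt_pos.2 hR
  set T : Set (E m) := closedBall zc (C2 / √R) ∩ closedBall z0 δ0 with hT
  have hTm : MeasurableSet T := isClosed_closedBall.measurableSet.inter
    isClosed_closedBall.measurableSet
  have h1 : ∀ z, z ∉ T → (χ z : ℂ) * J z = 0 := by
    intro z hz
    rw [hT, mem_inter_iff, not_and_or] at hz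
    rcases hz with hz | hz
    · rw [mem_closedBall, dist_eq_norm, not_le] at hz
      rw [hχ0 z hz, Complex.ofReal_zero, zero_mul]
    · rw [mem_closedBall, dist_eq_norm, not_le] at hz
      rw [hJ0 z hz, mul_zero]
  have h2 : ‖∫ z, (χ z : ℂ) * J z‖ₑ ≤ ∫⁻ z in T, G z ^ (1 / 2 : ℝ) := by
    refine (enorm_integral_le_lintegral_enorm _).trans ?_
    rw [← lintegral_indicator hTm]
    refine lintegral_mono fun z => ?_
    by_cases hz : z ∈ T
    · rw [indicator_of_mem hz, enorm_mul]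
      have h3 : ‖(χ z : ℂ)‖ₑ ≤ 1 := by
        rw [← ofReal_norm, Complex.norm_real, Real.norm_eq_abs, ← ENNReal.ofReal_one]
        exact ENNReal.ofReal_le_ofReal (hχ1 z)
      have h4 : ‖J z‖ₑ ≤ G z ^ (1 / 2 : ℝ) := by
        have h5 := ENNReal.rpow_le_rpow (hJ z) (by norm_num : (0 : ℝ) ≤ 1 / 2)
        rwa [← ENNReal.rpow_natCast, ← ENNReal.rpow_mul, Nat.cast_ofNat,
          mul_one_div_cancel (by norm_num), ENNReal.rpow_one] at h5
      calc ‖(χ z : ℂ)‖ₑ * ‖J z‖ₑ ≤ 1 * G z ^ (1 / 2 : ℝ) := mul_le_mul' h3 h4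
        _ = _ := one_mul _
    · rw [indicator_of_notMem hz, h1 z hz, enorm_zero]
  have h3 : Measurable fun z => G z ^ (1 / 2 : ℝ) := hG.pow_const _
  have h4 := cs_set (volume.restrict T) h3.aemeasurable
  have h5 : ∀ z, (G z ^ (1 / 2 : ℝ)) ^ 2 = G z := by
    intro z
    rw [← ENNReal.rpow_natCast, ← ENNReal.rpow_mul, Nat.cast_ofNat,
      one_div_mul_cancel (by norm_num), ENNReal.rpow_one]
  simp only [h5] at h4
  refine (pow_le_pow_left' h2 2).trans (h4.trans (mul_le_mul' ?_ le_rfl))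
  rw [Measure.restrict_apply_univ]
  refine (measure_mono inter_subset_left).trans ?_
  rw [Measure.addHaar_closedBall _ _ (by positivity), finrank_euclideanSpace, Fintype.card_fin,
    ← ENNReal.ofReal_toReal (measure_ball_lt_top (x := (0 : E m)) (r := 1)).ne,
    ← ENNReal.ofReal_mul (by positivity)]
  refine ENNReal.ofReal_le_ofReal ?_
  have h6 : (0 : ℝ) ≤ (1 / √R) ^ m := by positivity
  calc (C2 / √R) ^ m * (volume (ball (0 : E m) 1)).toReal
      = (C2 ^ m * (volume (ball (0 : E m) 1)).toReal) * (1 / √R) ^ m := by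
        rw [div_pow, div_pow, one_pow]
        ring
    _ ≤ C1 * (1 / √R) ^ m := mul_le_mul_of_nonneg_right hC h6

/-- DOM. -/
theorem dom (n m : ℕ) (B : ℕ → ℝ) (A D C2 δ0 : ℝ) (hA : 0 ≤ A) (hD : 0 ≤ D) (hC2 : 0 ≤ C2) :
    ∃ C : ℝ, 0 < C ∧ ∀ (X : ℝ × E m → E n), ContDiff ℝ ∞ X →
    (∀ p, ‖iteratedFDeriv ℝ 2 X p‖ ≤ A) →
    ∀ θ : ℝ → ℝ, ContDiff ℝ 1 θ → (∀ u, 1 ≤ |u| → θ u = 0) → (∀ u, |θ u| ≤ 1) →
    (∀ u, |deriv θ u| ≤ D) →
    ∀ (b : ℝ × E m → ℂ) (z0 : E m), Measurable b → (∀ t, ContDiff ℝ ∞ fun z => b (t, z)) →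
    (∀ k t z, ‖iteratedFDeriv ℝ k (fun z => b (t, z)) z‖ ≤ B k) →
    (∀ t z, δ0 < ‖z - z0‖ → b (t, z) = 0) →
    ∀ R t0 : ℝ, 1 ≤ R → ∃ GG : ℝ → ℝ≥0∞, Measurable GG ∧
      ∫⁻ τ, GG τ ≤ ENNReal.ofReal (C / √R) ∧ (∀ τ, GG τ ≤ ENNReal.ofReal (C / R)) ∧
      ∀ (zc : E m) (χ : E m → ℝ), Measurable χ → (∀ z, |χ z| ≤ 1) →
        (∀ z, C2 / √R < ‖z - zc‖ → χ z = 0) → ∀ ξ : E n, ‖ξ‖ ≤ 4 * R →
        ‖∫ p : ℝ × E m, ((θ (√R * (p.1 - t0)) * χ p.2 : ℝ) : ℂ) * b p *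
          Complex.exp (((-⟪ξ, X p⟫ : ℝ) : ℂ) * Complex.I)‖ₑ ^ 2 ≤
          ENNReal.ofReal (C * (1 / √R) ^ m) *
            ∫⁻ z in closedBall zc (C2 / √R) ∩ closedBall z0 δ0, GG ⟪ξ, Xt X (t0, z)⟫ := by
  obtain ⟨C1, hC1, H⟩ := dom_one n m B δ0 A D hA hD
  set v1 : ℝ := (volume (ball (0 : E m) 1)).toReal with hv1
  have hv10 : 0 ≤ v1 := ENNReal.toReal_nonneg
  have hCC : 0 ≤ C2 ^ m * v1 := by positivity
  refine ⟨C1 + C2 ^ m * v1, by positivity, fun X hX hXA θ hθ hθs hθ0 hθ1 b z0 hbm hbs hbB hb0 R t0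
    hR => ?_⟩
  have hR0 : 0 < R := by linarith
  have hsR : 0 < √R := Real.sqrt_pos.2 hR0
  obtain ⟨GG, hGm, hG1, hG2, hG3⟩ := H θ hθ hθs hθ0 hθ1 (fun t z => b (t, z)) z0 R t0 hbm hbs hb0
    (fun t j z => hbB j t z) hR
  refine ⟨GG, hGm, hG2.trans (ENNReal.ofReal_le_ofReal ?_), fun τ =>
    (hG1 τ).trans (ENNReal.ofReal_le_ofReal ?_), fun zc χ hχm hχ1 hχ0 ξ hξ => ?_⟩
  · gcongr
    linarith
  · gcongr
    linarith
  set J : E m → ℂ := fun z => ∫ t, b (t, z) * (θ (√R * (t - t0)) : ℂ) *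
    Complex.exp (((-⟪ξ, X (t, z)⟫ : ℝ) : ℂ) * Complex.I) with hJd
  have hJ : ∀ z, ‖J z‖ₑ ^ 2 ≤ GG ⟪ξ, Xt X (t0, z)⟫ := fun z =>
    hG3 z (fun t => X (t, z)) (fun t => Xt X (t, z)) ξ (fun t => hasDerivAt_Xt hX z t)
      ((continuous_Xt hX).comp (by fun_prop)) (fun t _ => Xt_lip hX hXA z t t0) hξ
  have hJ0 : ∀ z, δ0 < ‖z - z0‖ → J z = 0 := by
    intro z hz
    simp only [hJd, hb0 _ z hz, zero_mul, integral_zero]
  have hGc : Measurable fun z : E m => GG ⟪ξ, Xt X (t0, z)⟫ := by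
    refine hGm.comp ?_
    have h1 : Continuous fun z : E m => ⟪ξ, Xt X (t0, z)⟫ :=
      continuous_const.inner ((continuous_Xt hX).comp (by fun_prop))
    exact h1.measurable
  set F : ℝ × E m → ℂ := fun p => ((θ (√R * (p.1 - t0)) * χ p.2 : ℝ) : ℂ) * b p *
    Complex.exp (((-⟪ξ, X p⟫ : ℝ) : ℂ) * Complex.I) with hF
  have hFm : Measurable F := by
    have h1 : Measurable fun p : ℝ × E m => θ (√R * (p.1 - t0)) := by
      have h2 : Continuous fun p : ℝ × E m => θ (√R * (p.1 - t0)) :=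
        hθ.continuous.comp (by fun_prop)
      exact h2.measurable
    have h3 : Measurable fun p : ℝ × E m => χ p.2 := hχm.comp measurable_snd
    have h4 : Measurable fun p : ℝ × E m => Complex.exp (((-⟪ξ, X p⟫ : ℝ) : ℂ) * Complex.I) := by
      have h5 : Continuous fun p : ℝ × E m =>
          Complex.exp (((-⟪ξ, X p⟫ : ℝ) : ℂ) * Complex.I) := by
        have h6 : Continuous fun p : ℝ × E m => -⟪ξ, X p⟫ :=
          (continuous_const.inner hX.continuous).neg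
        exact Complex.continuous_exp.comp ((Complex.continuous_ofReal.comp h6).mul
          continuous_const)
      exact h5.measurable
    exact ((Complex.measurable_ofReal.comp (h1.mul h3)).mul hbm).mul h4
  have hFi : Integrable F ((volume : Measure ℝ).prod (volume : Measure (E m))) := by
    set T : Set (ℝ × E m) := closedBall t0 (1 / √R) ×ˢ closedBall zc (C2 / √R) with hT
    have hTm : MeasurableSet T := isClosed_closedBall.measurableSet.prod
      isClosed_closedBall.measurableSet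
    have h1 : IntegrableOn F T ((volume : Measure ℝ).prod (volume : Measure (E m))) := by
      refine Measure.integrableOn_of_bounded (M := B 0) ?_ hFm.aestronglyMeasurable
        (Filter.Eventually.of_forall fun p => ?_)
      · rw [Measure.prod_prod]
        exact ENNReal.mul_ne_top measure_closedBall_lt_top.ne measure_closedBall_lt_top.ne
      · simp only [hF]
        have h2 : ‖b p‖ ≤ B 0 := by
          have h3 := hbB 0 p.1 p.2
          rwa [norm_iteratedFDeriv_zero] at h3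
        rw [norm_mul, norm_ei, mul_one, norm_mul, Complex.norm_real, Real.norm_eq_abs, abs_mul]
        calc |θ (√R * (p.1 - t0))| * |χ p.2| * ‖b p‖ ≤ 1 * 1 * ‖b p‖ := by
              gcongr
              · exact hθ0 _
              · exact hχ1 _
          _ ≤ B 0 := by rw [one_mul, one_mul]; exact h2
    refine (integrableOn_iff_integrable_of_support_subset ?_).1 h1
    intro p hp
    by_contra h2
    apply hp
    rw [hT, mem_prod, not_and_or] at h2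
    simp only [hF]
    rcases h2 with h2 | h2
    · rw [mem_closedBall, Real.dist_eq, not_le] at h2
      have h3 : θ (√R * (p.1 - t0)) = 0 := by
        refine hθs _ ?_
        rw [abs_mul, abs_of_pos hsR]
        rw [div_lt_iff₀ hsR] at h2
        linarith
      rw [h3, zero_mul, Complex.ofReal_zero, zero_mul, zero_mul]
    · rw [mem_closedBall, dist_eq_norm, not_le] at h2
      rw [hχ0 _ h2, mul_zero, Complex.ofReal_zero, zero_mul, zero_mul]
  have h1 : ∫ p, F p = ∫ z, (χ z : ℂ) * J z := by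
    rw [Measure.volume_eq_prod, integral_prod_symm F hFi]
    refine integral_congr_ae (Filter.Eventually.of_forall fun z => ?_)
    simp only [hJd, hF]
    rw [← integral_const_mul]
    refine integral_congr_ae (Filter.Eventually.of_forall fun t => ?_)
    simp only
    push_cast
    ring
  rw [h1]
  exact dom_z hR0 hC2 J _ hGc hJ zc z0 δ0 χ hχ1 hχ0 hJ0 (by linarith)

/-- The derivative of the cut-off is bounded. -/
theorem th_deriv_bound : ∃ D : ℝ, 0 ≤ D ∧ ∀ u, |deriv th u| ≤ D := by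
  have h1 : HasCompactSupport th :=
    HasCompactSupport.intro (isCompact_closedBall (0 : ℝ) 1) fun u hu => tr_th_zero (by
      rw [mem_closedBall, Real.dist_eq, sub_zero, not_le] at hu
      exact hu.le)
  have h2 : Continuous (deriv th) := tr_contDiff_th.continuous_deriv (by norm_num)
  obtain ⟨D, hD⟩ := h1.deriv.exists_bound_of_continuous h2
  refine ⟨D, (norm_nonneg _).trans (hD 0), fun u => ?_⟩
  have := hD u
  rwa [Real.norm_eq_abs] at this

/-- DOM for the caps of the grid. -/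
theorem dom_caps (n m : ℕ) (B : ℕ → ℝ) (A δ0 : ℝ) (hA : 0 ≤ A) :
    ∃ C : ℝ, 0 < C ∧ ∀ (X : ℝ × E m → E n), ContDiff ℝ ∞ X →
    (∀ p, ‖iteratedFDeriv ℝ 2 X p‖ ≤ A) →
    ∀ (b : ℝ × E m → ℂ) (z0 : E m), Measurable b → (∀ t, ContDiff ℝ ∞ fun z => b (t, z)) →
    (∀ k t z, ‖iteratedFDeriv ℝ k (fun z => b (t, z)) z‖ ≤ B k) →
    (∀ t z, δ0 < ‖z - z0‖ → b (t, z) = 0) →
    ∀ (R t0 : ℝ) (M i : ℕ), 1 ≤ R → ∃ GG : ℝ → ℝ≥0∞, Measurable GG ∧
      ∫⁻ τ, GG τ ≤ ENNReal.ofReal (C / √R) ∧ (∀ τ, GG τ ≤ ENNReal.ofReal (C / R)) ∧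
      ∀ (k : Fin m → ℕ) (ξ : E n), ‖ξ‖ ≤ 4 * R →
        ‖∫ p : ℝ × E m, ((chi1 t0 (1 / √R) M i p.1 * chi2 z0 (1 / √R) M k p.2 : ℝ) : ℂ) * b p *
          Complex.exp (((-⟪ξ, X p⟫ : ℝ) : ℂ) * Complex.I)‖ₑ ^ 2 ≤
          ENNReal.ofReal (C * (1 / √R) ^ m) *
            ∫⁻ z in closedBall (zc z0 (1 / √R) M k) (√m / √R) ∩ closedBall z0 δ0,
              GG ⟪ξ, Xt X (tc t0 (1 / √R) M i, z)⟫ := by
  obtain ⟨D, hD0, hD⟩ := th_deriv_bound
  obtain ⟨C, hC, H⟩ := dom n m B A D (√m) δ0 hA hD0 (Real.sqrt_nonneg _)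
  refine ⟨C, hC, fun X hX hXA b z0 hbm hbs hbB hb0 R t0 M i hR => ?_⟩
  have hR0 : 0 < R := by linarith
  have hsR : 0 < √R := Real.sqrt_pos.2 hR0
  have hr : 0 < 1 / √R := by positivity
  obtain ⟨GG, hGm, hG1, hG2, hG3⟩ := H X hX hXA th (tr_contDiff_th.of_le (by norm_num))
    (fun u hu => tr_th_zero hu)
    (fun u => by
      rw [abs_of_nonneg (caps_th_nonneg u)]
      exact caps_th_le_one u) hD b z0 hbm hbs hbB hb0 R (tc t0 (1 / √R) M i) hR
  refine ⟨GG, hGm, hG1, hG2, fun k ξ hξ => ?_⟩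
  have h1 : ∀ t, chi1 t0 (1 / √R) M i t = th (√R * (t - tc t0 (1 / √R) M i)) := by
    intro t
    unfold chi1
    congr 1
    field_simp
  have h2 := hG3 (zc z0 (1 / √R) M k) (chi2 z0 (1 / √R) M k)
    (contDiff_chi2 z0 (1 / √R) M k).continuous.measurable
    (fun z => by
      rw [abs_of_nonneg (chi2_nonneg z0 (1 / √R) M k z)]
      exact chi2_le_one z0 (1 / √R) M k z)
    (fun z hz => chi2_zero hr (by rwa [mul_one_div])) ξ hξ
  simp only [h1]
  exact h2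

end Pool.Agent.LEAF
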