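import Pool.Agent.LEAF.DOM4

/-!
Domination of the caps of a density which is rough in one variable: densities which live on a
window in the smooth variables, with an amplitude which depends on the rough variable.
-/

namespace Pool.Agent.LEAF

open MeasureTheory Set Metric FourierTransform Pool.Agent.LF Pool.Agent.GNP
open Pool.Agent.MP_6cbfb8_an
open scoped ENNReal Real RealInnerProductSpace ContDiff

theorem Ps_bound2 {g : ℝ → ℂ} {R t0 w τ : ℝ} (hR : 0 < R) :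
    ‖Ps g R t0 w τ‖ₑ ≤ ∫⁻ t in closedBall t0 (1 / √R), ‖g t‖ₑ := by
  rw [Ps_def]
  refine (enorm_integral_le_lintegral_enorm _).trans ?_
  refine le_trans (le_of_eq ?_) (lintegral_mono_set (win_sub R t0 w hR))
  refine lintegral_congr fun t => ?_
  rw [← ofReal_norm, norm_mul, norm_ei, mul_one, ofReal_norm]

/-- Plancherel in `τ`. -/
theorem Ps_planch2 {g : ℝ → ℂ} {B R t0 w : ℝ} (hR : 0 < R) (hgm : Measurable g)
    (hg : ∀ t, ‖g t‖ ≤ B) :
    ∫⁻ τ : ℝ, ‖Ps g R t0 w τ‖ₑ ^ 2 ≤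
      ENNReal.ofReal (2 * π) * ∫⁻ t in closedBall t0 (1 / √R), ‖g t‖ₑ ^ 2 := by
  have hπ : (0 : ℝ) < 2 * π := by positivity
  set Ψ : ℝ → ℝ := fun t => (2 * π)⁻¹ * (t - t0) with hΨ
  have hA : ∀ φ : ℝ → ℝ≥0∞, Measurable φ →
      ∫⁻ t in win R t0 w, φ (Ψ t) ≤ ENNReal.ofReal (2 * π) * ∫⁻ x, φ x := by
    intro φ hφ
    refine (setLIntegral_le_lintegral _ _).trans (le_of_eq ?_)
    have h1 : ∫⁻ t, φ (Ψ t) = ∫⁻ t, φ ((2 * π)⁻¹ * t) :=
      lintegral_sub_right_eq_self (fun t => φ ((2 * π)⁻¹ * t)) t0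
    rw [h1]
    have h2 : ∫⁻ t : ℝ, φ ((2 * π)⁻¹ * t) =
        ∫⁻ x, φ x ∂(Measure.map (fun t : ℝ => (2 * π)⁻¹ * t) volume) :=
      (lintegral_map hφ (measurable_const_mul _)).symm
    rw [h2, Real.map_volume_mul_left (inv_ne_zero hπ.ne'), lintegral_smul_measure, inv_inv,
      abs_of_pos hπ, smul_eq_mul]
  have hgi : Integrable g (volume.restrict (win R t0 w)) := by
    refine Measure.integrableOn_of_bounded (M := B) ?_ hgm.aestronglyMeasurable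
      (Filter.Eventually.of_forall hg)
    exact ne_top_of_le_ne_top ENNReal.ofReal_ne_top (volume_win R t0 w hR)
  have key := Pool.Agent.MP_6cbfb8_an.bessel (volume.restrict (win R t0 w)) Ψ (by fun_prop)
    (ENNReal.ofReal (2 * π)) ENNReal.ofReal_ne_top hA g hgi
  have e1 : ∀ τ : ℝ, ‖Ps g R t0 w τ‖ₑ ^ 2 =
      ‖∫ t in win R t0 w, g t *
        Complex.exp (((-(2 * π * inner ℝ (Ψ t) τ) : ℝ) : ℂ) * Complex.I)‖ₑ ^ (2 : ℝ) := by
    intro τ
    rw [ENNReal.rpow_two, Ps_def]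
    congr 2
    refine integral_congr_ae (Filter.Eventually.of_forall fun t => ?_)
    simp only
    congr 3
    simp only [hΨ, RCLike.inner_apply, conj_trivial]
    congr 2
    field_simp
  simp only [e1]
  refine key.trans ?_
  refine mul_le_mul' le_rfl ?_
  simp only [ENNReal.rpow_two]
  exact lintegral_mono_set (win_sub R t0 w hR)

theorem GGf_le2 {m : ℕ} {c C : ℝ} (hc : 0 ≤ c) (hC0 : 0 ≤ C)
    {b : ℝ → EuclideanSpace ℝ (Fin m) → ℂ} {β : ℝ → ℝ} (hβm : Measurable β)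
    (hC : ∀ t η, ‖𝓕 (b t) η‖ ≤ C * β t * (wt m η)⁻¹) {R : ℝ} (hR : 0 < R)
    (t0 τ : ℝ) :
    GGf c b R t0 τ ≤ ENNReal.ofReal (2 * c * C ^ 2 * Wm m) *
      (∫⁻ t in closedBall t0 (1 / √R), ENNReal.ofReal (β t)) ^ 2 := by
  set I : ℝ≥0∞ := ∫⁻ t in closedBall t0 (1 / √R), ENNReal.ofReal (β t) with hI
  have h1 : ∀ (w : ℝ) (η : EuclideanSpace ℝ (Fin m)),
      ENNReal.ofReal (wt m η) * ‖Ps (bh b η) R t0 w τ‖ₑ ^ 2 ≤
        (ENNReal.ofReal (C ^ 2) * I ^ 2) * ENNReal.ofReal ((wt m η)⁻¹) := by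
    intro w η
    have hw := wt_pos m η
    have h2 : ‖Ps (bh b η) R t0 w τ‖ₑ ≤ ENNReal.ofReal (C * (wt m η)⁻¹) * I := by
      refine (Ps_bound2 hR).trans ?_
      rw [hI, ← lintegral_const_mul _ hβm.ennreal_ofReal]
      refine lintegral_mono fun t => ?_
      rw [← ofReal_norm, ← ENNReal.ofReal_mul (by positivity), bh_def]
      refine ENNReal.ofReal_le_ofReal ((hC t η).trans (le_of_eq ?_))
      ring
    calc ENNReal.ofReal (wt m η) * ‖Ps (bh b η) R t0 w τ‖ₑ ^ 2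
        ≤ ENNReal.ofReal (wt m η) * (ENNReal.ofReal (C * (wt m η)⁻¹) * I) ^ 2 :=
          mul_le_mul' le_rfl (pow_le_pow_left' h2 2)
      _ = (ENNReal.ofReal (wt m η) * ENNReal.ofReal (C * (wt m η)⁻¹) ^ 2) * I ^ 2 := by ring
      _ = (ENNReal.ofReal (C ^ 2) * ENNReal.ofReal ((wt m η)⁻¹)) * I ^ 2 := by
          congr 1
          rw [← ENNReal.ofReal_pow (by positivity), ← ENNReal.ofReal_mul hw.le,
            ← ENNReal.ofReal_mul (by positivity)]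
          congr 1
          field_simp
      _ = _ := by ring
  unfold GGf
  have hW := Wm_nonneg m
  calc ENNReal.ofReal c * ∫⁻ w in Icc (-1 : ℝ) 1, ∫⁻ η : EuclideanSpace ℝ (Fin m),
        ENNReal.ofReal (wt m η) * ‖Ps (bh b η) R t0 w τ‖ₑ ^ 2
      ≤ ENNReal.ofReal c * ∫⁻ _ in Icc (-1 : ℝ) 1, ∫⁻ η : EuclideanSpace ℝ (Fin m),
          (ENNReal.ofReal (C ^ 2) * I ^ 2) * ENNReal.ofReal ((wt m η)⁻¹) := by
        exact mul_le_mul' le_rfl (lintegral_mono fun w => lintegral_mono fun η => h1 w η)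
    _ = ENNReal.ofReal c * ((ENNReal.ofReal (C ^ 2) * I ^ 2) * ENNReal.ofReal (Wm m) *
          ENNReal.ofReal 2) := by
        have h3 : Measurable fun η : EuclideanSpace ℝ (Fin m) => ENNReal.ofReal ((wt m η)⁻¹) :=
          ((continuous_wt m).measurable.inv).ennreal_ofReal
        rw [setLIntegral_const, Real.volume_Icc, lintegral_const_mul _ h3, Wm_eq]
        norm_num
    _ = (ENNReal.ofReal c * ENNReal.ofReal (C ^ 2) * ENNReal.ofReal (Wm m) *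
          ENNReal.ofReal 2) * I ^ 2 := by ring
    _ = _ := by
        congr 1
        rw [← ENNReal.ofReal_mul hc, ← ENNReal.ofReal_mul (by positivity),
          ← ENNReal.ofReal_mul (by positivity)]
        congr 1
        ring

theorem GGf_int2 {m : ℕ} {c C : ℝ} (hc : 0 ≤ c) (hC0 : 0 ≤ C)
    {b : ℝ → EuclideanSpace ℝ (Fin m) → ℂ} (hb : Measurable (Function.uncurry b))
    {β : ℝ → ℝ} {Mβ : ℝ} (hβm : Measurable β) (hβM : ∀ t, β t ≤ Mβ)
    (hC : ∀ t η, ‖𝓕 (b t) η‖ ≤ C * β t * (wt m η)⁻¹) {R : ℝ} (hR : 0 < R) (t0 : ℝ) :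
    ∫⁻ τ, GGf c b R t0 τ ≤ ENNReal.ofReal (4 * π * c * C ^ 2 * Wm m) *
      ∫⁻ t in closedBall t0 (1 / √R), ENNReal.ofReal (β t ^ 2) := by
  set I : ℝ≥0∞ := ∫⁻ t in closedBall t0 (1 / √R), ENNReal.ofReal (β t ^ 2) with hI
  have haux := measurable_GGf_aux hb R t0
  have h0 : Measurable fun p : ℝ × ℝ => ∫⁻ η : EuclideanSpace ℝ (Fin m),
      ENNReal.ofReal (wt m η) * ‖Ps (bh b η) R t0 p.2 p.1‖ₑ ^ 2 :=
    haux.lintegral_prod_right' (ν := (volume : Measure (EuclideanSpace ℝ (Fin m))))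
  have h1 : ∀ w : ℝ, ∫⁻ τ : ℝ, ∫⁻ η : EuclideanSpace ℝ (Fin m),
      ENNReal.ofReal (wt m η) * ‖Ps (bh b η) R t0 w τ‖ₑ ^ 2 ≤
        (ENNReal.ofReal (2 * π * C ^ 2) * I) * ENNReal.ofReal (Wm m) := by
    intro w
    have hsw : Measurable fun p : ℝ × EuclideanSpace ℝ (Fin m) =>
        ENNReal.ofReal (wt m p.2) * ‖Ps (bh b p.2) R t0 w p.1‖ₑ ^ 2 :=
      (((continuous_wt m).measurable.comp measurable_snd).ennreal_ofReal).mul
        ((measurable_Ps' hb R t0 measurable_snd measurable_const measurable_fst).enorm.pow_const 2)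
    have hsw' := lintegral_lintegral_swap (μ := (volume : Measure ℝ))
      (ν := (volume : Measure (EuclideanSpace ℝ (Fin m))))
      (f := fun τ η => ENNReal.ofReal (wt m η) * ‖Ps (bh b η) R t0 w τ‖ₑ ^ 2) hsw.aemeasurable
    rw [hsw']
    calc ∫⁻ η : EuclideanSpace ℝ (Fin m), ∫⁻ τ : ℝ,
          ENNReal.ofReal (wt m η) * ‖Ps (bh b η) R t0 w τ‖ₑ ^ 2
        ≤ ∫⁻ η : EuclideanSpace ℝ (Fin m), (ENNReal.ofReal (2 * π * C ^ 2) * I) *
            ENNReal.ofReal ((wt m η)⁻¹) := by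
          refine lintegral_mono fun η => ?_
          have hw := wt_pos m η
          simp only
          rw [lintegral_const_mul' _ _ ENNReal.ofReal_ne_top]
          have hbm : Measurable (bh b η) := measurable_bh' hb measurable_const measurable_id
          have h2 : ∫⁻ τ : ℝ, ‖Ps (bh b η) R t0 w τ‖ₑ ^ 2 ≤
              ENNReal.ofReal (2 * π) * (ENNReal.ofReal ((C * (wt m η)⁻¹) ^ 2) * I) := by
            refine (Ps_planch2 (B := C * Mβ * (wt m η)⁻¹) hR hbm fun t => ?_).trans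
              (mul_le_mul' le_rfl ?_)
            · rw [bh_def]
              refine (hC t η).trans ?_
              have := hβM t
              gcongr
            · rw [hI, ← lintegral_const_mul _ (hβm.pow_const 2).ennreal_ofReal]
              refine lintegral_mono fun t => ?_
              simp only
              rw [← ofReal_norm, ← ENNReal.ofReal_pow (norm_nonneg _),
                ← ENNReal.ofReal_mul (by positivity), bh_def]
              refine ENNReal.ofReal_le_ofReal ?_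
              calc ‖𝓕 (b t) η‖ ^ 2 ≤ (C * β t * (wt m η)⁻¹) ^ 2 :=
                    pow_le_pow_left₀ (norm_nonneg _) (hC t η) 2
                _ = _ := by ring
          calc ENNReal.ofReal (wt m η) * ∫⁻ τ : ℝ, ‖Ps (bh b η) R t0 w τ‖ₑ ^ 2
              ≤ ENNReal.ofReal (wt m η) *
                  (ENNReal.ofReal (2 * π) * (ENNReal.ofReal ((C * (wt m η)⁻¹) ^ 2) * I)) :=
                mul_le_mul' le_rfl h2
            _ = (ENNReal.ofReal (wt m η) * ENNReal.ofReal (2 * π) *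
                  ENNReal.ofReal ((C * (wt m η)⁻¹) ^ 2)) * I := by ring
            _ = (ENNReal.ofReal (2 * π * C ^ 2) * ENNReal.ofReal ((wt m η)⁻¹)) * I := by
                congr 1
                rw [← ENNReal.ofReal_mul hw.le, ← ENNReal.ofReal_mul (by positivity),
                  ← ENNReal.ofReal_mul (by positivity)]
                congr 1
                field_simp
            _ = _ := by ring
      _ = _ := by
        have h3 : Measurable fun η : EuclideanSpace ℝ (Fin m) => ENNReal.ofReal ((wt m η)⁻¹) :=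
          ((continuous_wt m).measurable.inv).ennreal_ofReal
        rw [lintegral_const_mul _ h3, Wm_eq]
  have h2 := lintegral_lintegral_swap (μ := (volume : Measure ℝ))
    (ν := volume.restrict (Icc (-1 : ℝ) 1))
    (f := fun τ w => ∫⁻ η : EuclideanSpace ℝ (Fin m),
      ENNReal.ofReal (wt m η) * ‖Ps (bh b η) R t0 w τ‖ₑ ^ 2) h0.aemeasurable
  unfold GGf
  rw [lintegral_const_mul' _ _ ENNReal.ofReal_ne_top, h2]
  have hW := Wm_nonneg m
  calc ENNReal.ofReal c * ∫⁻ w in Icc (-1 : ℝ) 1, ∫⁻ τ : ℝ, ∫⁻ η : EuclideanSpace ℝ (Fin m),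
        ENNReal.ofReal (wt m η) * ‖Ps (bh b η) R t0 w τ‖ₑ ^ 2
      ≤ ENNReal.ofReal c * ∫⁻ _ in Icc (-1 : ℝ) 1,
          (ENNReal.ofReal (2 * π * C ^ 2) * I) * ENNReal.ofReal (Wm m) := by
        exact mul_le_mul' le_rfl (lintegral_mono fun w => h1 w)
    _ = ENNReal.ofReal c * ((ENNReal.ofReal (2 * π * C ^ 2) * I) * ENNReal.ofReal (Wm m) *
          ENNReal.ofReal 2) := by
        rw [setLIntegral_const, Real.volume_Icc]
        norm_num
    _ = (ENNReal.ofReal c * ENNReal.ofReal (2 * π * C ^ 2) * ENNReal.ofReal (Wm m) *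
          ENNReal.ofReal 2) * I := by ring
    _ = _ := by
        congr 1
        rw [← ENNReal.ofReal_mul hc, ← ENNReal.ofReal_mul (by positivity),
          ← ENNReal.ofReal_mul (by positivity)]
        congr 1
        ring

/-- Decay of the Fourier transform with an amplitude. -/
theorem four_decay2 (m : ℕ) (B : ℕ → ℝ) (r : ℝ) : ∃ C : ℝ, 0 ≤ C ∧
    ∀ (f : EuclideanSpace ℝ (Fin m) → ℂ) (z0 : EuclideanSpace ℝ (Fin m)) (β : ℝ), 0 ≤ β →
      ContDiff ℝ ∞ f → (∀ z, r < ‖z - z0‖ → f z = 0) →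
      (∀ j z, ‖iteratedFDeriv ℝ j f z‖ ≤ β * B j) → ∀ η, ‖𝓕 f η‖ ≤ C * β * (wt m η)⁻¹ := by
  obtain ⟨C, hC, H⟩ := four_decay m B r
  refine ⟨C, hC, fun f z0 β hβ hf hs hB η => ?_⟩
  rcases hβ.eq_or_lt with h0 | h0
  · have h1 : f = fun _ => 0 := by
      funext z
      have h2 := hB 0 z
      rw [norm_iteratedFDeriv_zero, ← h0, zero_mul] at h2
      exact norm_le_zero_iff.1 h2
    have h3 : 𝓕 f η = 0 := by
      rw [h1, Real.fourier_eq']
      simp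
    rw [h3, norm_zero, ← h0, mul_zero, zero_mul]
  · set g : EuclideanSpace ℝ (Fin m) → ℂ := fun z => (β⁻¹ : ℝ) • f z with hg
    have hgf : ContDiff ℝ ∞ g := hf.const_smul _
    have h1 : ∀ j z, ‖iteratedFDeriv ℝ j g z‖ ≤ B j := by
      intro j z
      have h2 : iteratedFDeriv ℝ j g z = (β⁻¹ : ℝ) • iteratedFDeriv ℝ j f z := by
        have h3 : ContDiffAt ℝ j f z := (hf.of_le (by exact_mod_cast le_top)).contDiffAt
        exact iteratedFDeriv_const_smul_apply' h3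
      rw [h2, norm_smul, norm_inv, Real.norm_of_nonneg hβ, inv_mul_le_iff₀ h0]
      exact hB j z
    have h4 := (H g z0 hgf (fun z hz => by simp only [hg, hs z hz, smul_zero]) h1).1 η
    have h5 : 𝓕 g η = (β⁻¹ : ℝ) • 𝓕 f η := by
      rw [Real.fourier_eq', Real.fourier_eq', ← integral_smul]
      refine integral_congr_ae (Filter.Eventually.of_forall fun v => ?_)
      simp only [hg]
      rw [smul_comm]
    rw [h5, norm_smul, norm_inv, Real.norm_of_nonneg hβ, inv_mul_le_iff₀ h0] at h4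
    refine h4.trans (le_of_eq ?_)
    ring

theorem dom_one2 (n m : ℕ) (B : ℕ → ℝ) (r A D : ℝ) (hA : 0 ≤ A) (hD : 0 ≤ D) :
    ∃ C : ℝ, 0 < C ∧ ∀ (θ : ℝ → ℝ), ContDiff ℝ 1 θ → (∀ u, 1 ≤ |u| → θ u = 0) →
    (∀ u, |θ u| ≤ 1) → (∀ u, |deriv θ u| ≤ D) →
    ∀ (b : ℝ → EuclideanSpace ℝ (Fin m) → ℂ) (z0 : EuclideanSpace ℝ (Fin m)) (β : ℝ → ℝ)
      (Mβ R t0 : ℝ), Measurable β → (∀ t, 0 ≤ β t) → (∀ t, β t ≤ Mβ) →
      Measurable (Function.uncurry b) → (∀ t, ContDiff ℝ ∞ (b t)) →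
      (∀ t z, r < ‖z - z0‖ → b t z = 0) →
      (∀ t j z, ‖iteratedFDeriv ℝ j (b t) z‖ ≤ β t * B j) →
      1 ≤ R → ∃ GG : ℝ → ℝ≥0∞, Measurable GG ∧
        (∫⁻ τ, GG τ ≤ ENNReal.ofReal C *
          ∫⁻ t in closedBall t0 (1 / √R), ENNReal.ofReal (β t ^ 2)) ∧
        (∀ τ, GG τ ≤ ENNReal.ofReal C *
          (∫⁻ t in closedBall t0 (1 / √R), ENNReal.ofReal (β t)) ^ 2) ∧
        ∀ (z : EuclideanSpace ℝ (Fin m)) (y y' : ℝ → EuclideanSpace ℝ (Fin n))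
          (ξ : EuclideanSpace ℝ (Fin n)), (∀ t, HasDerivAt y (y' t) t) → Continuous y' →
          (∀ t, |t - t0| ≤ 1 / √R → ‖y' t - y' t0‖ ≤ A * |t - t0|) → ‖ξ‖ ≤ 4 * R →
          ‖∫ t, b t z * (θ (√R * (t - t0)) : ℂ) *
            Complex.exp (((-⟪ξ, y t⟫ : ℝ) : ℂ) * Complex.I)‖ₑ ^ 2 ≤ GG ⟪ξ, y' t0⟫ := by
  obtain ⟨C1, hC10, H⟩ := four_decay2 m B r
  set c : ℝ := 2 * (D + 4 * A) ^ 2 * Wm m with hc
  have hW := Wm_nonneg m
  have hc0 : 0 ≤ c := by positivity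
  refine ⟨4 * π * c * C1 ^ 2 * Wm m + 1, by positivity, fun θ hθ hθs hθ0 hθ1 b z0 β Mβ R t0 hβm
    hβ hβM hbm hbs hbsupp hbB hR => ?_⟩
  have hR0 : 0 < R := by linarith
  have hMβ : 0 ≤ Mβ := (hβ 0).trans (hβM 0)
  have hC : ∀ t η, ‖𝓕 (b t) η‖ ≤ C1 * β t * (wt m η)⁻¹ := fun t η =>
    H (b t) z0 (β t) (hβ t) (hbs t) (hbsupp t) (hbB t) η
  obtain ⟨C2, hC20, H2⟩ := four_decay m (fun j => Mβ * |B j|) r
  have hB2 : ∀ t j z, ‖iteratedFDeriv ℝ j (b t) z‖ ≤ Mβ * |B j| := by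
    intro t j z
    refine (hbB t j z).trans ?_
    calc β t * B j ≤ β t * |B j| := mul_le_mul_of_nonneg_left (le_abs_self _) (hβ t)
      _ ≤ Mβ * |B j| := mul_le_mul_of_nonneg_right (hβM t) (abs_nonneg _)
  have hC' : ∀ t η, ‖𝓕 (b t) η‖ ≤ C2 * (wt m η)⁻¹ := fun t η =>
    (H2 (b t) z0 (hbs t) (hbsupp t) (hB2 t)).1 η
  have hinv : ∀ t z, b t z =
      ∫ η, Complex.exp (((2 * π * ⟪η, z⟫ : ℝ) : ℂ) * Complex.I) * 𝓕 (b t) η := fun t z =>
    (H2 (b t) z0 (hbs t) (hbsupp t) (hB2 t)).2 z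
  refine ⟨GGf c b R t0, measurable_GGf c hbm R t0, ?_, fun τ => ?_, ?_⟩
  · refine (GGf_int2 hc0 hC10 hbm hβm hβM hC hR0 t0).trans
      (mul_le_mul' (ENNReal.ofReal_le_ofReal ?_) le_rfl)
    linarith
  · refine (GGf_le2 hc0 hC10 hβm hC hR0 t0 τ).trans
      (mul_le_mul' (ENNReal.ofReal_le_ofReal ?_) le_rfl)
    have h2 : 0 ≤ c * C1 ^ 2 * Wm m := by positivity
    have h3 : (3 : ℝ) < π := Real.pi_gt_three
    nlinarith
  · intro z y y' ξ hy hyc hyA hξ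
    have hgm : Measurable fun t => b t z := hbm.comp (measurable_id.prodMk measurable_const)
    have hg : ∀ t, ‖b t z‖ ≤ Mβ * |B 0| := by
      intro t
      have := hB2 t 0 z
      rwa [norm_iteratedFDeriv_zero] at this
    refine (dom_t n A D hA hD θ hθ hθs hθ0 hθ1 (fun t => b t z) (Mβ * |B 0|) R t0 y y' ξ hR hgm hg
      hy hyc hyA hξ).trans ?_
    unfold GGf
    calc ENNReal.ofReal (2 * (D + 4 * A) ^ 2) *
          ∫⁻ w in Icc (-1 : ℝ) 1, ‖Ps (fun t => b t z) R t0 w ⟪ξ, y' t0⟫‖ₑ ^ 2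
        ≤ ENNReal.ofReal (2 * (D + 4 * A) ^ 2) * ∫⁻ w in Icc (-1 : ℝ) 1,
            ENNReal.ofReal (Wm m) * ∫⁻ η, ENNReal.ofReal (wt m η) *
              ‖Ps (bh b η) R t0 w ⟪ξ, y' t0⟫‖ₑ ^ 2 := by
          exact mul_le_mul' le_rfl (lintegral_mono fun w => Ps_z hR0 hbm hC' hinv t0 w _ z)
      _ = _ := by
          rw [lintegral_const_mul' _ _ ENNReal.ofReal_ne_top, ← mul_assoc,
            ← ENNReal.ofReal_mul (by positivity), hc]

/-- The assembly over the smooth variables. -/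
theorem dom_asm {n m : ℕ} {X : ℝ × E m → E n} (hX : ContDiff ℝ ∞ X) {θ : ℝ → ℝ}
    (hθ : ContDiff ℝ 1 θ) (hθs : ∀ u, 1 ≤ |u| → θ u = 0) (hθ0 : ∀ u, |θ u| ≤ 1)
    {b : ℝ × E m → ℂ} {M0 : ℝ} (hbm : Measurable b) (hbB : ∀ p, ‖b p‖ ≤ M0) {z0 : E m} {δ : ℝ}
    (hb0 : ∀ t z, δ < ‖z - z0‖ → b (t, z) = 0) {R t0 : ℝ} (hR : 0 < R) {C1 C2 : ℝ}
    (hC2 : 0 ≤ C2) (hC : C2 ^ m * (volume (ball (0 : E m) 1)).toReal ≤ C1) {G : E m → ℝ≥0∞}
    (hG : Measurable G) {ξ : E n}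
    (hJ : ∀ z, ‖∫ t, b (t, z) * (θ (√R * (t - t0)) : ℂ) *
      Complex.exp (((-⟪ξ, X (t, z)⟫ : ℝ) : ℂ) * Complex.I)‖ₑ ^ 2 ≤ G z) {zc : E m} {χ : E m → ℝ}
    (hχm : Measurable χ) (hχ1 : ∀ z, |χ z| ≤ 1) (hχ0 : ∀ z, C2 / √R < ‖z - zc‖ → χ z = 0) :
    ‖∫ p : ℝ × E m, ((θ (√R * (p.1 - t0)) * χ p.2 : ℝ) : ℂ) * b p *
      Complex.exp (((-⟪ξ, X p⟫ : ℝ) : ℂ) * Complex.I)‖ₑ ^ 2 ≤
      ENNReal.ofReal (C1 * (1 / √R) ^ m) *
        ∫⁻ z in closedBall zc (C2 / √R) ∩ closedBall z0 δ, G z := by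
  have hsR : 0 < √R := Real.sqrt_pos.2 hR
  set J : E m → ℂ := fun z => ∫ t, b (t, z) * (θ (√R * (t - t0)) : ℂ) *
    Complex.exp (((-⟪ξ, X (t, z)⟫ : ℝ) : ℂ) * Complex.I) with hJd
  have hJ0 : ∀ z, δ < ‖z - z0‖ → J z = 0 := by
    intro z hz
    simp only [hJd, hb0 _ z hz, zero_mul, integral_zero]
  set F : ℝ × E m → ℂ := fun p => ((θ (√R * (p.1 - t0)) * χ p.2 : ℝ) : ℂ) * b p *
    Complex.exp (((-⟪ξ, X p⟫ : ℝ) : ℂ) * Complex.I) with hF
  have hFm : Measurable F := by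
    have h1 : Measurable fun p : ℝ × E m => θ (√R * (p.1 - t0)) := by
      have h2 : Continuous fun p : ℝ × E m => θ (√R * (p.1 - t0)) :=
        hθ.continuous.comp (by fun_prop)
      exact h2.measurable
    have h3 : Measurable fun p : ℝ × E m => χ p.2 := hχm.comp measurable_snd
    have h4 : Measurable fun p : ℝ × E m => Complex.exp (((-⟪ξ, X p⟫ : ℝ) : ℂ) * Complex.I) := by
      have h5 : Continuous fun p : ℝ × E m =>
          Complex.exp (((-⟪ξ, X p⟫ : ℝ) : ℂ) * Complex.I) := by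
        have h6 : Continuous fun p : ℝ × E m => -⟪ξ, X p⟫ :=
          (continuous_const.inner hX.continuous).neg
        exact Complex.continuous_exp.comp ((Complex.continuous_ofReal.comp h6).mul
          continuous_const)
      exact h5.measurable
    exact ((Complex.measurable_ofReal.comp (h1.mul h3)).mul hbm).mul h4
  have hFi : Integrable F ((volume : Measure ℝ).prod (volume : Measure (E m))) := by
    set T : Set (ℝ × E m) := closedBall t0 (1 / √R) ×ˢ closedBall zc (C2 / √R) with hT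
    have h1 : IntegrableOn F T ((volume : Measure ℝ).prod (volume : Measure (E m))) := by
      refine Measure.integrableOn_of_bounded (M := M0) ?_ hFm.aestronglyMeasurable
        (Filter.Eventually.of_forall fun p => ?_)
      · rw [Measure.prod_prod]
        exact ENNReal.mul_ne_top measure_closedBall_lt_top.ne measure_closedBall_lt_top.ne
      · simp only [hF]
        rw [norm_mul, norm_ei, mul_one, norm_mul, Complex.norm_real, Real.norm_eq_abs, abs_mul]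
        calc |θ (√R * (p.1 - t0))| * |χ p.2| * ‖b p‖ ≤ 1 * 1 * ‖b p‖ := by
              gcongr
              · exact hθ0 _
              · exact hχ1 _
          _ ≤ M0 := by rw [one_mul, one_mul]; exact hbB p
    refine (integrableOn_iff_integrable_of_support_subset ?_).1 h1
    intro p hp
    by_contra h2
    apply hp
    rw [hT, mem_prod, not_and_or] at h2
    simp only [hF]
    rcases h2 with h2 | h2
    · rw [mem_closedBall, Real.dist_eq, not_le] at h2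
      have h3 : θ (√R * (p.1 - t0)) = 0 := by
        refine hθs _ ?_
        rw [abs_mul, abs_of_pos hsR]
        rw [div_lt_iff₀ hsR] at h2
        linarith
      rw [h3, zero_mul, Complex.ofReal_zero, zero_mul, zero_mul]
    · rw [mem_closedBall, dist_eq_norm, not_le] at h2
      rw [hχ0 _ h2, mul_zero, Complex.ofReal_zero, zero_mul, zero_mul]
  have h1 : ∫ p, F p = ∫ z, (χ z : ℂ) * J z := by
    rw [Measure.volume_eq_prod, integral_prod_symm F hFi]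
    refine integral_congr_ae (Filter.Eventually.of_forall fun z => ?_)
    simp only [hJd, hF]
    rw [← integral_const_mul]
    refine integral_congr_ae (Filter.Eventually.of_forall fun t => ?_)
    simp only
    push_cast
    ring
  rw [h1]
  exact dom_z hR hC2 J G hG hJ zc z0 δ χ hχ1 hχ0 hJ0 hC

theorem iter_scale {m : ℕ} {Φ : E m → ℂ} {j : ℕ} (hΦ : ContDiff ℝ j Φ) (z0 : E m) {l : ℝ}
    (hl : 0 ≤ l) (y : E m) :
    ‖iteratedFDeriv ℝ j (fun y => Φ (z0 + l • y)) y‖ ≤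
      ‖iteratedFDeriv ℝ j Φ (z0 + l • y)‖ * l ^ j := by
  have h1 : ContDiff ℝ j (fun w => Φ (z0 + w)) := hΦ.comp (contDiff_const.add contDiff_id)
  have h2 : (fun y => Φ (z0 + l • y)) =
      (fun w => Φ (z0 + w)) ∘ (l • ContinuousLinearMap.id ℝ (E m)) := by
    funext y; simp
  rw [h2, ContinuousLinearMap.iteratedFDeriv_comp_right _ h1 y le_rfl]
  refine (ContinuousMultilinearMap.norm_compContinuousLinearMap_le _ _).trans ?_
  rw [iteratedFDeriv_comp_add_left, Finset.prod_const, Finset.card_univ, Fintype.card_fin]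
  simp only [smul_apply, ContinuousLinearMap.id_apply]
  refine mul_le_mul_of_nonneg_left (pow_le_pow_left₀ (norm_nonneg _) ?_ j) (norm_nonneg _)
  rw [norm_smul, Real.norm_of_nonneg hl]
  exact mul_le_of_le_one_right hl ContinuousLinearMap.norm_id_le

/-- DOM on a window of size `1 / Λ`, with an amplitude `β` in the rough variable. -/
theorem dom_win (n m : ℕ) (B : ℕ → ℝ) (A D C2 δ0 : ℝ) (hA : 0 ≤ A) (hD : 0 ≤ D) (hC2 : 0 ≤ C2) :
    ∃ C : ℝ, 0 < C ∧ ∀ (X : ℝ × E m → E n), ContDiff ℝ ∞ X →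
    (∀ p, ‖iteratedFDeriv ℝ 2 X p‖ ≤ A) →
    ∀ θ : ℝ → ℝ, ContDiff ℝ 1 θ → (∀ u, 1 ≤ |u| → θ u = 0) → (∀ u, |θ u| ≤ 1) →
    (∀ u, |deriv θ u| ≤ D) →
    ∀ (b : ℝ × E m → ℂ) (z0 : E m) (Λ : ℝ) (β : ℝ → ℝ) (Mβ : ℝ), 0 < Λ → Measurable b →
    Measurable β → (∀ t, 0 ≤ β t) → (∀ t, β t ≤ Mβ) → (∀ t, ContDiff ℝ ∞ fun z => b (t, z)) →
    (∀ k t z, ‖iteratedFDeriv ℝ k (fun z => b (t, z)) z‖ ≤ β t * B k * Λ ^ k) →
    (∀ t z, δ0 / Λ < ‖z - z0‖ → b (t, z) = 0) →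
    ∀ R t0 : ℝ, 1 ≤ R → ∃ GG : ℝ → ℝ≥0∞, Measurable GG ∧
      (∫⁻ τ, GG τ ≤ ENNReal.ofReal C *
        ∫⁻ t in closedBall t0 (1 / √R), ENNReal.ofReal (β t ^ 2)) ∧
      (∀ τ, GG τ ≤ ENNReal.ofReal C *
        (∫⁻ t in closedBall t0 (1 / √R), ENNReal.ofReal (β t)) ^ 2) ∧
      ∀ (zc : E m) (χ : E m → ℝ), Measurable χ → (∀ z, |χ z| ≤ 1) →
        (∀ z, C2 / √R < ‖z - zc‖ → χ z = 0) → ∀ ξ : E n, ‖ξ‖ ≤ 4 * R →
        ‖∫ p : ℝ × E m, ((θ (√R * (p.1 - t0)) * χ p.2 : ℝ) : ℂ) * b p *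
          Complex.exp (((-⟪ξ, X p⟫ : ℝ) : ℂ) * Complex.I)‖ₑ ^ 2 ≤
          ENNReal.ofReal (C * (1 / √R) ^ m) *
            ∫⁻ z in closedBall zc (C2 / √R) ∩ closedBall z0 (δ0 / Λ),
              GG ⟪ξ, Xt X (t0, z)⟫ := by
  obtain ⟨C1, hC1, H⟩ := dom_one2 n m B δ0 A D hA hD
  set v1 : ℝ := (volume (ball (0 : E m) 1)).toReal with hv1
  have hv10 : 0 ≤ v1 := ENNReal.toReal_nonneg
  have hCC : 0 ≤ C2 ^ m * v1 := by positivity
  refine ⟨C1 + C2 ^ m * v1, by positivity, fun X hX hXA θ hθ hθs hθ0 hθ1 b z0 Λ β Mβ hΛ hbm hβm hβ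
    hβM hbs hbB hb0 R t0 hR => ?_⟩
  have hR0 : 0 < R := by linarith
  have hli : 0 ≤ Λ⁻¹ := (inv_pos.2 hΛ).le
  -- the rescaled density
  set b' : ℝ → E m → ℂ := fun t y => b (t, z0 + Λ⁻¹ • y) with hb'
  have hb'm : Measurable (Function.uncurry b') := by
    have h1 : Measurable fun p : ℝ × E m => ((p.1, z0 + Λ⁻¹ • p.2) : ℝ × E m) := by fun_prop
    exact hbm.comp h1
  have hb's : ∀ t, ContDiff ℝ ∞ (b' t) := fun t =>
    (hbs t).comp (contDiff_const.add (contDiff_id.const_smul _))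
  have hb'0 : ∀ t y, δ0 < ‖y - 0‖ → b' t y = 0 := by
    intro t y hy
    refine hb0 t _ ?_
    rw [add_sub_cancel_left, norm_smul, Real.norm_of_nonneg hli, ← div_eq_inv_mul]
    rw [sub_zero] at hy
    exact div_lt_div_of_pos_right hy hΛ
  have hb'B : ∀ t j y, ‖iteratedFDeriv ℝ j (b' t) y‖ ≤ β t * B j := by
    intro t j y
    have h1 : ContDiff ℝ j fun z => b (t, z) := (hbs t).of_le (by exact_mod_cast le_top)
    refine (iter_scale h1 z0 hli y).trans ?_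
    calc ‖iteratedFDeriv ℝ j (fun z => b (t, z)) (z0 + Λ⁻¹ • y)‖ * Λ⁻¹ ^ j
        ≤ β t * B j * Λ ^ j * Λ⁻¹ ^ j := mul_le_mul_of_nonneg_right (hbB j t _) (by positivity)
      _ = β t * B j := by
          rw [mul_assoc, ← mul_pow, mul_inv_cancel₀ hΛ.ne', one_pow, mul_one]
  obtain ⟨GG, hGm, hG1, hG2, hG3⟩ := H θ hθ hθs hθ0 hθ1 b' 0 β Mβ R t0 hβm hβ hβM hb'm hb's hb'0
    hb'B hR
  refine ⟨GG, hGm, hG1.trans (mul_le_mul' (ENNReal.ofReal_le_ofReal (by linarith)) le_rfl),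
    fun τ => (hG2 τ).trans (mul_le_mul' (ENNReal.ofReal_le_ofReal (by linarith)) le_rfl),
    fun zc χ hχm hχ1 hχ0 ξ hξ => ?_⟩
  have hbb : ∀ t z, b (t, z) = b' t (Λ • (z - z0)) := by
    intro t z
    simp only [hb']
    rw [smul_smul, inv_mul_cancel₀ hΛ.ne', one_smul, add_sub_cancel]
  have hJ : ∀ z, ‖∫ t, b (t, z) * (θ (√R * (t - t0)) : ℂ) *
      Complex.exp (((-⟪ξ, X (t, z)⟫ : ℝ) : ℂ) * Complex.I)‖ₑ ^ 2 ≤ GG ⟪ξ, Xt X (t0, z)⟫ := by
    intro z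
    simp only [hbb _ z]
    exact hG3 (Λ • (z - z0)) (fun t => X (t, z)) (fun t => Xt X (t, z)) ξ
      (fun t => hasDerivAt_Xt hX z t) ((continuous_Xt hX).comp (by fun_prop))
      (fun t _ => Xt_lip hX hXA z t t0) hξ
  have hGc : Measurable fun z : E m => GG ⟪ξ, Xt X (t0, z)⟫ := by
    refine hGm.comp ?_
    have h1 : Continuous fun z : E m => ⟪ξ, Xt X (t0, z)⟫ :=
      continuous_const.inner ((continuous_Xt hX).comp (by fun_prop))
    exact h1.measurable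
  have hMβ : 0 ≤ Mβ := (hβ 0).trans (hβM 0)
  have hbd : ∀ p, ‖b p‖ ≤ Mβ * |B 0| := by
    intro p
    have h1 := hbB 0 p.1 p.2
    rw [norm_iteratedFDeriv_zero, pow_zero, mul_one] at h1
    refine h1.trans ?_
    calc β p.1 * B 0 ≤ β p.1 * |B 0| := mul_le_mul_of_nonneg_left (le_abs_self _) (hβ _)
      _ ≤ Mβ * |B 0| := mul_le_mul_of_nonneg_right (hβM _) (abs_nonneg _)
  exact dom_asm hX hθ hθs hθ0 hbm hbd hb0 hR0 hC2 (by linarith) hGc hJ hχm hχ1 hχ0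

/-- DOM over a dominating function of one variable which is given. -/
theorem dom_of (n m : ℕ) (A D C2 : ℝ) (hA : 0 ≤ A) (hD : 0 ≤ D) (hC2 : 0 ≤ C2) :
    ∃ C : ℝ, 0 < C ∧ ∀ (X : ℝ × E m → E n), ContDiff ℝ ∞ X →
    (∀ p, ‖iteratedFDeriv ℝ 2 X p‖ ≤ A) →
    ∀ θ : ℝ → ℝ, ContDiff ℝ 1 θ → (∀ u, 1 ≤ |u| → θ u = 0) → (∀ u, |θ u| ≤ 1) →
    (∀ u, |deriv θ u| ≤ D) →
    ∀ (b : ℝ × E m → ℂ) (z0 : E m) (δ0 M0 : ℝ), Measurable b → (∀ p, ‖b p‖ ≤ M0) →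
    (∀ t z, δ0 < ‖z - z0‖ → b (t, z) = 0) →
    ∀ (R t0 : ℝ) (GG : ℝ → ℝ≥0∞), 1 ≤ R → Measurable GG →
      (∀ z τ, ∫⁻ w in Icc (-1 : ℝ) 1, ‖Ps (fun t => b (t, z)) R t0 w τ‖ₑ ^ 2 ≤ GG τ) →
      ∀ (zc : E m) (χ : E m → ℝ), Measurable χ → (∀ z, |χ z| ≤ 1) →
        (∀ z, C2 / √R < ‖z - zc‖ → χ z = 0) → ∀ ξ : E n, ‖ξ‖ ≤ 4 * R →
        ‖∫ p : ℝ × E m, ((θ (√R * (p.1 - t0)) * χ p.2 : ℝ) : ℂ) * b p *
          Complex.exp (((-⟪ξ, X p⟫ : ℝ) : ℂ) * Complex.I)‖ₑ ^ 2 ≤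
          ENNReal.ofReal (C * (1 / √R) ^ m) *
            ∫⁻ z in closedBall zc (C2 / √R) ∩ closedBall z0 δ0, GG ⟪ξ, Xt X (t0, z)⟫ := by
  set v1 : ℝ := (volume (ball (0 : E m) 1)).toReal with hv1
  have hv10 : 0 ≤ v1 := ENNReal.toReal_nonneg
  have hCC : 0 ≤ C2 ^ m * v1 := by positivity
  set a : ℝ := 2 * (D + 4 * A) ^ 2 with ha
  have ha0 : 0 ≤ a := by positivity
  refine ⟨C2 ^ m * v1 * a + 1, by positivity, fun X hX hXA θ hθ hθs hθ0 hθ1 b z0 δ0 M0 hbm hbB hb0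
    R t0 GG hR hGm hGG zc χ hχm hχ1 hχ0 ξ hξ => ?_⟩
  have hR0 : 0 < R := by linarith
  have hJ : ∀ z, ‖∫ t, b (t, z) * (θ (√R * (t - t0)) : ℂ) *
      Complex.exp (((-⟪ξ, X (t, z)⟫ : ℝ) : ℂ) * Complex.I)‖ₑ ^ 2 ≤
      ENNReal.ofReal a * GG ⟪ξ, Xt X (t0, z)⟫ := by
    intro z
    have hgm : Measurable fun t => b (t, z) := hbm.comp (measurable_id.prodMk measurable_const)
    refine (dom_t n A D hA hD θ hθ hθs hθ0 hθ1 (fun t => b (t, z)) M0 R t0 (fun t => X (t, z))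
      (fun t => Xt X (t, z)) ξ hR hgm (fun t => hbB (t, z)) (fun t => hasDerivAt_Xt hX z t)
      ((continuous_Xt hX).comp (by fun_prop)) (fun t _ => Xt_lip hX hXA z t t0) hξ).trans ?_
    exact mul_le_mul' le_rfl (hGG z _)
  have hGc : Measurable fun z : E m => GG ⟪ξ, Xt X (t0, z)⟫ := by
    refine hGm.comp ?_
    have h1 : Continuous fun z : E m => ⟪ξ, Xt X (t0, z)⟫ :=
      continuous_const.inner ((continuous_Xt hX).comp (by fun_prop))
    exact h1.measurable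
  refine (dom_asm hX hθ hθs hθ0 hbm hbB hb0 hR0 hC2 le_rfl (hGc.const_mul _) hJ hχm hχ1
    hχ0).trans ?_
  rw [lintegral_const_mul _ hGc, ← mul_assoc, ← ENNReal.ofReal_mul (by positivity)]
  refine mul_le_mul' (ENNReal.ofReal_le_ofReal ?_) le_rfl
  have h1 : (0 : ℝ) ≤ (1 / √R) ^ m := by positivity
  calc C2 ^ m * v1 * (1 / √R) ^ m * a = C2 ^ m * v1 * a * (1 / √R) ^ m := by ring
    _ ≤ (C2 ^ m * v1 * a + 1) * (1 / √R) ^ m := by gcongr; linarith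

/-- DOM for the caps of the grid, over a dominating function of one variable which is given. -/
theorem dom_caps_of (n m : ℕ) (A : ℝ) (hA : 0 ≤ A) :
    ∃ C : ℝ, 0 < C ∧ ∀ (X : ℝ × E m → E n), ContDiff ℝ ∞ X →
    (∀ p, ‖iteratedFDeriv ℝ 2 X p‖ ≤ A) →
    ∀ (b : ℝ × E m → ℂ) (z0 : E m) (δ0 M0 : ℝ), Measurable b → (∀ p, ‖b p‖ ≤ M0) →
    (∀ t z, δ0 < ‖z - z0‖ → b (t, z) = 0) →
    ∀ (R t0 : ℝ) (M i : ℕ) (GG : ℝ → ℝ≥0∞), 1 ≤ R → Measurable GG →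
      (∀ z τ, ∫⁻ w in Icc (-1 : ℝ) 1,
        ‖Ps (fun t => b (t, z)) R (tc t0 (1 / √R) M i) w τ‖ₑ ^ 2 ≤ GG τ) →
      ∀ (k : Fin m → ℕ) (ξ : E n), ‖ξ‖ ≤ 4 * R →
        ‖∫ p : ℝ × E m, ((chi1 t0 (1 / √R) M i p.1 * chi2 z0 (1 / √R) M k p.2 : ℝ) : ℂ) * b p *
          Complex.exp (((-⟪ξ, X p⟫ : ℝ) : ℂ) * Complex.I)‖ₑ ^ 2 ≤
          ENNReal.ofReal (C * (1 / √R) ^ m) *
            ∫⁻ z in closedBall (zc z0 (1 / √R) M k) (√m / √R) ∩ closedBall z0 δ0,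
              GG ⟪ξ, Xt X (tc t0 (1 / √R) M i, z)⟫ := by
  obtain ⟨D, hD0, hD⟩ := th_deriv_bound
  obtain ⟨C, hC, H⟩ := dom_of n m A D (√m) hA hD0 (Real.sqrt_nonneg _)
  refine ⟨C, hC, fun X hX hXA b z0 δ0 M0 hbm hbB hb0 R t0 M i GG hR hGm hGG k ξ hξ => ?_⟩
  have hR0 : 0 < R := by linarith
  have hsR : 0 < √R := Real.sqrt_pos.2 hR0
  have hr : 0 < 1 / √R := by positivity
  have h1 : ∀ t, chi1 t0 (1 / √R) M i t = th (√R * (t - tc t0 (1 / √R) M i)) := by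
    intro t
    unfold chi1
    congr 1
    field_simp
  have h2 := H X hX hXA th (tr_contDiff_th.of_le (by norm_num))
    (fun u hu => tr_th_zero hu)
    (fun u => by
      rw [abs_of_nonneg (caps_th_nonneg u)]
      exact caps_th_le_one u) hD b z0 δ0 M0 hbm hbB hb0 R (tc t0 (1 / √R) M i) GG hR hGm hGG
    (zc z0 (1 / √R) M k) (chi2 z0 (1 / √R) M k)
    (contDiff_chi2 z0 (1 / √R) M k).continuous.measurable
    (fun z => by
      rw [abs_of_nonneg (chi2_nonneg z0 (1 / √R) M k z)]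
      exact chi2_le_one z0 (1 / √R) M k z)
    (fun z hz => chi2_zero hr (by rwa [mul_one_div])) ξ hξ
  simp only [h1]
  exact h2

/-- DOM for the caps of the grid, on a window, with an amplitude in the rough variable. -/
theorem dom_caps_win (n m : ℕ) (B : ℕ → ℝ) (A δ0 : ℝ) (hA : 0 ≤ A) :
    ∃ C : ℝ, 0 < C ∧ ∀ (X : ℝ × E m → E n), ContDiff ℝ ∞ X →
    (∀ p, ‖iteratedFDeriv ℝ 2 X p‖ ≤ A) →
    ∀ (b : ℝ × E m → ℂ) (zQ : E m) (Λ : ℝ) (β : ℝ → ℝ) (Mβ : ℝ), 0 < Λ → Measurable b →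
    Measurable β → (∀ t, 0 ≤ β t) → (∀ t, β t ≤ Mβ) → (∀ t, ContDiff ℝ ∞ fun z => b (t, z)) →
    (∀ k t z, ‖iteratedFDeriv ℝ k (fun z => b (t, z)) z‖ ≤ β t * B k * Λ ^ k) →
    (∀ t z, δ0 / Λ < ‖z - zQ‖ → b (t, z) = 0) →
    ∀ (R t0 : ℝ) (z0 : E m) (M i : ℕ), 1 ≤ R → ∃ GG : ℝ → ℝ≥0∞, Measurable GG ∧
      (∫⁻ τ, GG τ ≤ ENNReal.ofReal C *
        ∫⁻ t in closedBall (tc t0 (1 / √R) M i) (1 / √R), ENNReal.ofReal (β t ^ 2)) ∧
      (∀ τ, GG τ ≤ ENNReal.ofReal C *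
        (∫⁻ t in closedBall (tc t0 (1 / √R) M i) (1 / √R), ENNReal.ofReal (β t)) ^ 2) ∧
      ∀ (k : Fin m → ℕ) (ξ : E n), ‖ξ‖ ≤ 4 * R →
        ‖∫ p : ℝ × E m, ((chi1 t0 (1 / √R) M i p.1 * chi2 z0 (1 / √R) M k p.2 : ℝ) : ℂ) * b p *
          Complex.exp (((-⟪ξ, X p⟫ : ℝ) : ℂ) * Complex.I)‖ₑ ^ 2 ≤
          ENNReal.ofReal (C * (1 / √R) ^ m) *
            ∫⁻ z in closedBall (zc z0 (1 / √R) M k) (√m / √R) ∩ closedBall zQ (δ0 / Λ),
              GG ⟪ξ, Xt X (tc t0 (1 / √R) M i, z)⟫ := by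
  obtain ⟨D, hD0, hD⟩ := th_deriv_bound
  obtain ⟨C, hC, H⟩ := dom_win n m B A D (√m) δ0 hA hD0 (Real.sqrt_nonneg _)
  refine ⟨C, hC, fun X hX hXA b zQ Λ β Mβ hΛ hbm hβm hβ hβM hbs hbB hb0 R t0 z0 M i hR => ?_⟩
  have hR0 : 0 < R := by linarith
  have hsR : 0 < √R := Real.sqrt_pos.2 hR0
  have hr : 0 < 1 / √R := by positivity
  obtain ⟨GG, hGm, hG1, hG2, hG3⟩ := H X hX hXA th (tr_contDiff_th.of_le (by norm_num))
    (fun u hu => tr_th_zero hu)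
    (fun u => by
      rw [abs_of_nonneg (caps_th_nonneg u)]
      exact caps_th_le_one u) hD b zQ Λ β Mβ hΛ hbm hβm hβ hβM hbs hbB hb0 R
    (tc t0 (1 / √R) M i) hR
  refine ⟨GG, hGm, hG1, hG2, fun k ξ hξ => ?_⟩
  have h1 : ∀ t, chi1 t0 (1 / √R) M i t = th (√R * (t - tc t0 (1 / √R) M i)) := by
    intro t
    unfold chi1
    congr 1
    field_simp
  have h2 := hG3 (zc z0 (1 / √R) M k) (chi2 z0 (1 / √R) M k)
    (contDiff_chi2 z0 (1 / √R) M k).continuous.measurable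
    (fun z => by
      rw [abs_of_nonneg (chi2_nonneg z0 (1 / √R) M k z)]
      exact chi2_le_one z0 (1 / √R) M k z)
    (fun z hz => chi2_zero hr (by rwa [mul_one_div])) ξ hξ
  simp only [h1]
  exact h2

end Pool.Agent.LEAF
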